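import Mathlib

set_option autoImplicit false
open Finset

namespace Pool.Agent.TH805.RZ

/-- the matrix of the Turán–Kubilius inequality -/
noncomputable def A (n p : ℕ) : ℝ := (if p ∣ n then 1 else 0) - 1 / (p : ℝ)

lemma sum_dvd (N p : ℕ) :
    ∑ n ∈ Ioc 0 N, (if p ∣ n then (1:ℝ) else 0) = ((N / p : ℕ) : ℝ) := by
  rw [Finset.sum_boole, Nat.Ioc_filter_dvd_card_eq_div]

lemma floor_bounds (N d : ℕ) (hd : 0 < d) :
    ((N / d : ℕ) : ℝ) ≤ (N : ℝ) / d ∧ (N : ℝ) / d < ((N / d : ℕ) : ℝ) + 1 := by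
  have hd' : (0:ℝ) < d := by exact_mod_cast hd
  constructor
  · exact Nat.cast_div_le
  · rw [div_lt_iff₀ hd']
    have := Nat.lt_mul_div_succ N hd
    have h2 : (N:ℝ) < ((d * (N / d + 1) : ℕ) : ℝ) := by exact_mod_cast this
    push_cast at h2
    nlinarith

lemma S_off (N p q : ℕ) (hp : p.Prime) (hq : q.Prime) (hpq : p ≠ q) :
    |∑ n ∈ Ioc 0 N, A n p * A n q| ≤ 1 := by
  have hp0 : (0:ℝ) < p := by exact_mod_cast hp.pos
  have hq0 : (0:ℝ) < q := by exact_mod_cast hq.pos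
  have hp2 : (2:ℝ) ≤ p := by exact_mod_cast hp.two_le
  have hq2 : (2:ℝ) ≤ q := by exact_mod_cast hq.two_le
  have hcop : Nat.Coprime p q := (Nat.coprime_primes hp hq).2 hpq
  have e1 : ∀ n : ℕ, A n p * A n q = (if p * q ∣ n then (1:ℝ) else 0)
      - (1/(q:ℝ)) * (if p ∣ n then (1:ℝ) else 0) - (1/(p:ℝ)) * (if q ∣ n then (1:ℝ) else 0)
      + 1/((p:ℝ)*q) := by
    intro n
    have h : p * q ∣ n ↔ p ∣ n ∧ q ∣ n := by
      constructor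
      · intro h
        exact ⟨dvd_trans (Dvd.intro _ rfl) h, dvd_trans (Dvd.intro_left _ rfl) h⟩
      · rintro ⟨h1, h2⟩
        exact hcop.mul_dvd_of_dvd_of_dvd h1 h2
    unfold A
    by_cases h1 : p ∣ n <;> by_cases h2 : q ∣ n <;> simp [h, h1, h2] <;> field_simp <;> ring
  have e2 : ∑ n ∈ Ioc 0 N, A n p * A n q = ((N / (p*q) : ℕ) : ℝ)
      - (1/(q:ℝ)) * ((N / p : ℕ) : ℝ) - (1/(p:ℝ)) * ((N / q : ℕ) : ℝ) + N * (1/((p:ℝ)*q)) := by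
    rw [Finset.sum_congr rfl (fun n _ => e1 n)]
    rw [Finset.sum_add_distrib, Finset.sum_sub_distrib, Finset.sum_sub_distrib,
      ← Finset.mul_sum, ← Finset.mul_sum, sum_dvd, sum_dvd, sum_dvd]
    simp
  rw [e2]
  obtain ⟨a1, a2⟩ := floor_bounds N (p*q) (Nat.mul_pos hp.pos hq.pos)
  obtain ⟨b1, b2⟩ := floor_bounds N p hp.pos
  obtain ⟨c1, c2⟩ := floor_bounds N q hq.pos
  push_cast at a1 a2
  have hiq : 1/(q:ℝ) ≤ 1/2 := one_div_le_one_div_of_le (by norm_num) hq2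
  have hip : 1/(p:ℝ) ≤ 1/2 := one_div_le_one_div_of_le (by norm_num) hp2
  have hiq0 : 0 < 1/(q:ℝ) := by positivity
  have hip0 : 0 < 1/(p:ℝ) := by positivity
  have k1 : (N:ℝ)/((p:ℝ)*q) = (1/(q:ℝ)) * (N/p) := by field_simp
  have k2 : (N:ℝ)/((p:ℝ)*q) = (1/(p:ℝ)) * (N/q) := by field_simp
  have k3 : N * (1/((p:ℝ)*q)) = (N:ℝ)/((p:ℝ)*q) := by ring
  set x := ((N / (p*q) : ℕ) : ℝ)
  set y := ((N / p : ℕ) : ℝ)
  set z := ((N / q : ℕ) : ℝ)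
  set t := (N:ℝ)/((p:ℝ)*q)
  rw [k3, abs_le]
  have m1 : (1/(q:ℝ)) * y ≤ t := by rw [k1]; exact mul_le_mul_of_nonneg_left b1 hiq0.le
  have m2 : t ≤ (1/(q:ℝ)) * y + 1/(q:ℝ) := by
    rw [k1]
    calc (1/(q:ℝ)) * (N/p) ≤ (1/(q:ℝ)) * (y+1) := mul_le_mul_of_nonneg_left b2.le hiq0.le
      _ = _ := by ring
  have m3 : (1/(p:ℝ)) * z ≤ t := by rw [k2]; exact mul_le_mul_of_nonneg_left c1 hip0.le
  have m4 : t ≤ (1/(p:ℝ)) * z + 1/(p:ℝ) := by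
    rw [k2]
    calc (1/(p:ℝ)) * (N/q) ≤ (1/(p:ℝ)) * (z+1) := mul_le_mul_of_nonneg_left c2.le hip0.le
      _ = _ := by ring
  constructor <;> linarith

lemma S_diag (N p : ℕ) (hp : p.Prime) :
    ∑ n ∈ Ioc 0 N, A n p * A n p ≤ (N:ℝ) / p := by
  have hp0 : (0:ℝ) < p := by exact_mod_cast hp.pos
  have hp2 : (2:ℝ) ≤ p := by exact_mod_cast hp.two_le
  have e1 : ∀ n : ℕ, A n p * A n p = (1 - 2/(p:ℝ)) * (if p ∣ n then (1:ℝ) else 0)
      + 1/(p:ℝ)^2 := by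
    intro n
    unfold A
    by_cases h1 : p ∣ n <;> simp [h1] <;> field_simp
    ring
  have e2 : ∑ n ∈ Ioc 0 N, A n p * A n p = (1 - 2/(p:ℝ)) * ((N / p : ℕ) : ℝ)
      + N * (1/(p:ℝ)^2) := by
    rw [Finset.sum_congr rfl (fun n _ => e1 n)]
    rw [Finset.sum_add_distrib, ← Finset.mul_sum, sum_dvd]
    simp
  rw [e2]
  obtain ⟨b1, b2⟩ := floor_bounds N p hp.pos
  have h2p : 0 ≤ 1 - 2/(p:ℝ) := by
    rw [sub_nonneg, div_le_one hp0]; exact hp2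
  have h3 : (1 - 2/(p:ℝ)) * ((N / p : ℕ) : ℝ) ≤ (1 - 2/(p:ℝ)) * ((N:ℝ)/p) :=
    mul_le_mul_of_nonneg_left b1 h2p
  have h4 : (1 - 2/(p:ℝ)) * ((N:ℝ)/p) + N * (1/(p:ℝ)^2) = (N:ℝ)/p - N * (1/(p:ℝ)^2) := by
    field_simp
    ring
  have h5 : 0 ≤ N * (1/(p:ℝ)^2) := by positivity
  linarith

variable {H : Type*} [NormedAddCommGroup H] [InnerProductSpace ℝ H]

lemma norm_sum_sq (P : Finset ℕ) (c : ℕ → ℝ) (b : ℕ → H) :
    ‖∑ p ∈ P, c p • b p‖^2 = ∑ p ∈ P, ∑ q ∈ P, c p * c q * inner ℝ (b p) (b q) := by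
  rw [← real_inner_self_eq_norm_sq, sum_inner]
  refine Finset.sum_congr rfl fun p _ => ?_
  rw [inner_sum]
  refine Finset.sum_congr rfl fun q _ => ?_
  rw [real_inner_smul_left, real_inner_smul_right]
  ring

lemma sum_primes_le (N : ℕ) (P : Finset ℕ) (hP : ∀ p ∈ P, p.Prime ∧ p^2 ≤ N) :
    ∑ p ∈ P, (p:ℝ) ≤ N := by
  have hsub : P ⊆ Ioc 0 (Nat.sqrt N) := by
    intro p hp
    rw [Finset.mem_Ioc]
    refine ⟨(hP p hp).1.pos, ?_⟩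
    rw [Nat.le_sqrt']
    exact (hP p hp).2
  have h1 : ∑ p ∈ P, p ≤ ∑ p ∈ P, Nat.sqrt N := Finset.sum_le_sum fun p hp =>
    (Finset.mem_Ioc.1 (hsub hp)).2
  have h2 : P.card ≤ Nat.sqrt N := by
    have := Finset.card_le_card hsub
    simpa using this
  have h3 : ∑ p ∈ P, p ≤ N := by
    calc ∑ p ∈ P, p ≤ ∑ p ∈ P, Nat.sqrt N := h1
      _ = P.card * Nat.sqrt N := by simp
      _ ≤ Nat.sqrt N * Nat.sqrt N := Nat.mul_le_mul_right _ h2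
      _ ≤ N := Nat.sqrt_le N
  have h4 : ((∑ p ∈ P, p : ℕ) : ℝ) ≤ N := by exact_mod_cast h3
  rwa [Nat.cast_sum] at h4

theorem primal (N : ℕ) (P : Finset ℕ) (hP : ∀ p ∈ P, p.Prime ∧ p^2 ≤ N) (b : ℕ → H) :
    ∑ n ∈ Ioc 0 N, ‖∑ p ∈ P, A n p • b p‖^2 ≤ 2 * N * ∑ p ∈ P, ‖b p‖^2 / p := by
  have e1 : ∑ n ∈ Ioc 0 N, ‖∑ p ∈ P, A n p • b p‖^2
      = ∑ p ∈ P, ∑ q ∈ P, (∑ n ∈ Ioc 0 N, A n p * A n q) * inner ℝ (b p) (b q) := by
    simp_rw [norm_sum_sq]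
    rw [Finset.sum_comm]
    refine Finset.sum_congr rfl fun p _ => ?_
    rw [Finset.sum_comm]
    refine Finset.sum_congr rfl fun q _ => ?_
    rw [Finset.sum_mul]
  rw [e1]
  have e2 : ∀ p ∈ P, ∀ q ∈ P, (∑ n ∈ Ioc 0 N, A n p * A n q) * inner ℝ (b p) (b q)
      ≤ ‖b p‖ * ‖b q‖ + (if p = q then (N:ℝ) * (‖b p‖^2 / p) else 0) := by
    intro p hp q hq
    by_cases h : p = q
    · subst h
      rw [if_pos rfl, real_inner_self_eq_norm_sq]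
      have h1 := mul_le_mul_of_nonneg_right (S_diag N p (hP p hp).1) (sq_nonneg ‖b p‖)
      have h2 : (N:ℝ) / p * ‖b p‖^2 = (N:ℝ) * (‖b p‖^2 / p) := by ring
      have h3 : 0 ≤ ‖b p‖ * ‖b p‖ := by positivity
      linarith
    · rw [if_neg h, add_zero]
      have h1 := S_off N p q (hP p hp).1 (hP q hq).1 h
      have h2 := abs_real_inner_le_norm (b p) (b q)
      calc (∑ n ∈ Ioc 0 N, A n p * A n q) * inner ℝ (b p) (b q)
          ≤ |(∑ n ∈ Ioc 0 N, A n p * A n q) * inner ℝ (b p) (b q)| := le_abs_self _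
        _ = |∑ n ∈ Ioc 0 N, A n p * A n q| * |inner ℝ (b p) (b q)| := abs_mul _ _
        _ ≤ 1 * (‖b p‖ * ‖b q‖) := by
            apply mul_le_mul h1 h2 (abs_nonneg _) (by norm_num)
        _ = _ := one_mul _
  have e3 : ∑ p ∈ P, ∑ q ∈ P, (∑ n ∈ Ioc 0 N, A n p * A n q) * inner ℝ (b p) (b q)
      ≤ (∑ p ∈ P, ‖b p‖)^2 + (N:ℝ) * ∑ p ∈ P, ‖b p‖^2 / p := by
    calc _ ≤ ∑ p ∈ P, ∑ q ∈ P, (‖b p‖ * ‖b q‖ + (if p = q then (N:ℝ) * (‖b p‖^2 / p) else 0)) :=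
          Finset.sum_le_sum fun p hp => Finset.sum_le_sum fun q hq => e2 p hp q hq
      _ = _ := by
        simp_rw [Finset.sum_add_distrib]
        congr 1
        · rw [sq, Finset.sum_mul_sum]
        · rw [Finset.mul_sum]
          refine Finset.sum_congr rfl fun p hp => ?_
          rw [Finset.sum_ite_eq]
          simp [hp]
  have e4 : (∑ p ∈ P, ‖b p‖)^2 ≤ (N:ℝ) * ∑ p ∈ P, ‖b p‖^2 / p := by
    have hcs := Finset.sum_mul_sq_le_sq_mul_sq P (fun p => Real.sqrt p) (fun p => ‖b p‖ / Real.sqrt p)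
    have g1 : ∑ p ∈ P, Real.sqrt p * (‖b p‖ / Real.sqrt p) = ∑ p ∈ P, ‖b p‖ := by
      refine Finset.sum_congr rfl fun p hp => ?_
      have : (0:ℝ) < Real.sqrt p := Real.sqrt_pos.2 (by exact_mod_cast (hP p hp).1.pos)
      field_simp
    have g2 : ∑ p ∈ P, Real.sqrt p ^ 2 = ∑ p ∈ P, (p:ℝ) := by
      refine Finset.sum_congr rfl fun p hp => ?_
      rw [Real.sq_sqrt (by positivity)]
    have g3 : ∑ p ∈ P, (‖b p‖ / Real.sqrt p)^2 = ∑ p ∈ P, ‖b p‖^2 / p := by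
      refine Finset.sum_congr rfl fun p hp => ?_
      rw [div_pow, Real.sq_sqrt (by positivity)]
    rw [g1, g2, g3] at hcs
    refine hcs.trans (mul_le_mul_of_nonneg_right (sum_primes_le N P hP) ?_)
    exact Finset.sum_nonneg fun p _ => by positivity
  linarith

theorem dual (N : ℕ) (hN : 0 < N) (P : Finset ℕ) (hP : ∀ p ∈ P, p.Prime ∧ p^2 ≤ N) (a : ℕ → H) :
    ∑ p ∈ P, (p:ℝ) * ‖∑ n ∈ Ioc 0 N, A n p • a n‖^2 ≤ 2 * N * ∑ n ∈ Ioc 0 N, ‖a n‖^2 := by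
  have hN' : (0:ℝ) < N := by exact_mod_cast hN
  set T : ℕ → H := fun p => ∑ n ∈ Ioc 0 N, A n p • a n with hT
  set b : ℕ → H := fun p => (p:ℝ) • T p with hb
  set X := ∑ p ∈ P, (p:ℝ) * ‖T p‖^2 with hX
  set Z := ∑ n ∈ Ioc 0 N, ‖a n‖^2 with hZ
  set Y := ∑ n ∈ Ioc 0 N, ‖∑ p ∈ P, A n p • b p‖^2 with hY
  have h1 : Y ≤ 2 * N * X := by
    have := primal N P hP b
    refine this.trans (le_of_eq ?_)
    congr 1
    refine Finset.sum_congr rfl fun p hp => ?_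
    have hp0 : (0:ℝ) < p := by exact_mod_cast (hP p hp).1.pos
    rw [hb]
    simp only [norm_smul, Real.norm_eq_abs, abs_of_pos hp0]
    field_simp
  have h2 : ∑ n ∈ Ioc 0 N, inner ℝ (∑ p ∈ P, A n p • b p) (a n) = X := by
    simp_rw [sum_inner]
    rw [Finset.sum_comm]
    refine Finset.sum_congr rfl fun p hp => ?_
    calc ∑ n ∈ Ioc 0 N, inner ℝ (A n p • b p) (a n)
        = ∑ n ∈ Ioc 0 N, inner ℝ (b p) (A n p • a n) := by
          refine Finset.sum_congr rfl fun n _ => ?_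
          rw [real_inner_smul_left, real_inner_smul_right]
      _ = inner ℝ (b p) (T p) := by rw [hT, ← inner_sum]
      _ = p * ‖T p‖^2 := by
          rw [hb]
          simp only [real_inner_smul_left, real_inner_self_eq_norm_sq]
  have h3 : 0 ≤ ∑ n ∈ Ioc 0 N, ‖(1/(2*(N:ℝ))) • (∑ p ∈ P, A n p • b p) - a n‖^2 :=
    Finset.sum_nonneg fun n _ => sq_nonneg _
  have h4 : ∑ n ∈ Ioc 0 N, ‖(1/(2*(N:ℝ))) • (∑ p ∈ P, A n p • b p) - a n‖^2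
      = (1/(2*(N:ℝ)))^2 * Y - 2 * (1/(2*(N:ℝ))) * X + Z := by
    rw [← h2, hY, hZ, Finset.mul_sum, Finset.mul_sum, ← Finset.sum_sub_distrib,
      ← Finset.sum_add_distrib]
    refine Finset.sum_congr rfl fun n _ => ?_
    rw [norm_sub_sq_real, norm_smul, real_inner_smul_left, mul_pow, Real.norm_eq_abs, sq_abs]
    ring
  rw [h4] at h3
  have h5 : (1/(2*(N:ℝ)))^2 * Y ≤ (1/(2*(N:ℝ)))^2 * (2 * N * X) :=
    mul_le_mul_of_nonneg_left h1 (sq_nonneg _)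
  have h6 : (1/(2*(N:ℝ)))^2 * (2 * N * X) = X / (2 * N) := by field_simp
  have h7 : 2 * (1/(2*(N:ℝ))) * X = 2 * (X / (2 * N)) := by ring
  have h8 : X / (2 * N) ≤ Z := by linarith
  rw [div_le_iff₀ (by positivity)] at h8
  linarith

end Pool.Agent.TH805.RZ
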