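import Mathlib
import Pool.Agent.TH805.RZ.TK

set_option autoImplicit false
open Finset

namespace Pool.Agent.TH805.RZ

variable {G : Type*} [Group G] {H : Type*} [NormedAddCommGroup H] [InnerProductSpace ℝ H]

/-- the vector counting the values `h * f n`, `n ≤ N` -/
noncomputable def S (e : G → H) (f : ℕ → G) (h : G) (N : ℕ) : H := ∑ n ∈ Ioc 0 N, e (h * f n)

/-- the normalised vector of the distribution of `h * f n`, `n ≤ x` -/
noncomputable def V (e : G → H) (f : ℕ → G) (h : G) (x : ℝ) : H := x⁻¹ • S e f h ⌊x⌋₊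

section basic
variable {e : G → H} (he : Orthonormal ℝ e) (f : ℕ → G)
include he

lemma inner_e [DecidableEq G] (g h : G) : inner ℝ (e g) (e h) = if g = h then (1:ℝ) else 0 :=
  (orthonormal_iff_ite.1 he) g h

lemma norm_e (g : G) : ‖e g‖ = 1 := he.1 g

lemma norm_S_le (h : G) (N : ℕ) : ‖S e f h N‖ ≤ N := by
  unfold S
  refine (norm_sum_le _ _).trans ?_
  simp [norm_e he]

lemma norm_S_sub_le (h : G) {M N : ℕ} (hMN : M ≤ N) : ‖S e f h N - S e f h M‖ ≤ (N:ℝ) - M := by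
  have h1 : S e f h N - S e f h M = ∑ n ∈ Ioc M N, e (h * f n) := by
    unfold S
    have hu : Ioc 0 N = Ioc 0 M ∪ Ioc M N := (Ioc_union_Ioc_eq_Ioc (Nat.zero_le M) hMN).symm
    have hd : Disjoint (Ioc 0 M) (Ioc M N) := by
      rw [Finset.disjoint_left]
      intro a ha hb
      rw [Finset.mem_Ioc] at ha hb
      omega
    rw [hu, Finset.sum_union hd]
    abel
  rw [h1]
  refine (norm_sum_le _ _).trans ?_
  simp [norm_e he, Nat.cast_sub hMN]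

lemma norm_V_le (h : G) {x : ℝ} (hx : 0 < x) : ‖V e f h x‖ ≤ 1 := by
  unfold V
  rw [norm_smul, Real.norm_eq_abs, abs_of_pos (inv_pos.2 hx), inv_mul_le_iff₀ hx, mul_one]
  exact (norm_S_le he f h _).trans (Nat.floor_le hx.le)

lemma V_lip (h : G) {x y : ℝ} (hy : 0 < y) (hyx : y ≤ x) :
    ‖V e f h x - V e f h y‖ ≤ (2 * (x - y) + 1) / x := by
  have hx : 0 < x := hy.trans_le hyx
  unfold V
  have h1 : x⁻¹ • S e f h ⌊x⌋₊ - y⁻¹ • S e f h ⌊y⌋₊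
      = x⁻¹ • (S e f h ⌊x⌋₊ - S e f h ⌊y⌋₊) - (y⁻¹ - x⁻¹) • S e f h ⌊y⌋₊ := by
    rw [smul_sub, sub_smul]
    abel
  rw [h1]
  have h2 : 0 ≤ y⁻¹ - x⁻¹ := sub_nonneg.2 (inv_anti₀ hy hyx)
  have h3 : ‖x⁻¹ • (S e f h ⌊x⌋₊ - S e f h ⌊y⌋₊)‖ ≤ x⁻¹ * (x - y + 1) := by
    rw [norm_smul, Real.norm_eq_abs, abs_of_pos (inv_pos.2 hx)]
    refine mul_le_mul_of_nonneg_left ?_ (inv_pos.2 hx).le
    refine (norm_S_sub_le he f h (Nat.floor_le_floor hyx)).trans ?_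
    have := Nat.floor_le hx.le
    have := Nat.lt_floor_add_one y
    linarith
  have h4 : ‖(y⁻¹ - x⁻¹) • S e f h ⌊y⌋₊‖ ≤ (y⁻¹ - x⁻¹) * y := by
    rw [norm_smul, Real.norm_eq_abs, abs_of_nonneg h2]
    refine mul_le_mul_of_nonneg_left ?_ h2
    exact (norm_S_le he f h _).trans (Nat.floor_le hy.le)
  refine (norm_sub_le _ _).trans ((add_le_add h3 h4).trans (le_of_eq ?_))
  field_simp
  ring

lemma inner_S_mul (k h h' : G) (M N : ℕ) :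
    inner ℝ (S e f (k * h) M) (S e f (k * h') N) = inner ℝ (S e f h M) (S e f h' N) := by
  classical
  unfold S
  simp_rw [sum_inner, inner_sum, inner_e he, mul_assoc, mul_right_inj]

lemma inner_V_mul (k h h' : G) (x y : ℝ) :
    inner ℝ (V e f (k * h) x) (V e f (k * h') y) = inner ℝ (V e f h x) (V e f h' y) := by
  unfold V
  rw [real_inner_smul_left, real_inner_smul_right, real_inner_smul_left, real_inner_smul_right,
    inner_S_mul he]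

lemma norm_V_sub_mul (k h h' : G) (x y : ℝ) :
    ‖V e f (k * h) x - V e f (k * h') y‖ = ‖V e f h x - V e f h' y‖ := by
  have h1 : ‖V e f (k * h) x - V e f (k * h') y‖^2 = ‖V e f h x - V e f h' y‖^2 := by
    rw [norm_sub_sq_real, norm_sub_sq_real, ← real_inner_self_eq_norm_sq,
      ← real_inner_self_eq_norm_sq (V e f (k * h') y), ← real_inner_self_eq_norm_sq (V e f h x),
      ← real_inner_self_eq_norm_sq (V e f h' y), inner_V_mul he, inner_V_mul he, inner_V_mul he]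
  have h2 := congrArg Real.sqrt h1
  rwa [Real.sqrt_sq (norm_nonneg _), Real.sqrt_sq (norm_nonneg _)] at h2

lemma inner_S_nonneg (h k : G) (M N : ℕ) : 0 ≤ inner ℝ (S e f h M) (S e f k N) := by
  classical
  unfold S
  simp_rw [sum_inner, inner_sum, inner_e he]
  refine Finset.sum_nonneg fun i _ => Finset.sum_nonneg fun j _ => ?_
  split_ifs <;> norm_num

lemma inner_V_nonneg (h k : G) {x y : ℝ} (hx : 0 < x) (hy : 0 < y) :
    0 ≤ inner ℝ (V e f h x) (V e f k y) := by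
  unfold V
  rw [real_inner_smul_left, real_inner_smul_right]
  have := inner_S_nonneg he f h k ⌊x⌋₊ ⌊y⌋₊
  positivity

lemma inner_S_e [DecidableEq G] (h g : G) (N : ℕ) :
    inner ℝ (S e f h N) (e g) = ∑ n ∈ Ioc 0 N, if h * f n = g then (1:ℝ) else 0 := by
  unfold S
  simp_rw [sum_inner, inner_e he]

lemma sum_inner_S_le (F : Finset G) (N : ℕ) :
    ∑ h ∈ F, inner ℝ (S e f h N) (S e f 1 N) ≤ (N:ℝ)^2 := by
  classical
  unfold S
  simp_rw [sum_inner, inner_sum, inner_e he, one_mul]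
  rw [Finset.sum_comm]
  have h1 : ∀ m ∈ Ioc 0 N, ∑ h ∈ F, ∑ n ∈ Ioc 0 N, (if h * f m = f n then (1:ℝ) else 0) ≤ N := by
    intro m _
    rw [Finset.sum_comm]
    calc ∑ n ∈ Ioc 0 N, ∑ h ∈ F, (if h * f m = f n then (1:ℝ) else 0)
        ≤ ∑ n ∈ Ioc 0 N, (1:ℝ) := by
          refine Finset.sum_le_sum fun n _ => ?_
          have h2 : ∀ h : G, h * f m = f n ↔ h = f n * (f m)⁻¹ := fun h => eq_mul_inv_iff_mul_eq.symm
          simp_rw [h2]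
          rw [Finset.sum_ite_eq']
          split_ifs <;> norm_num
      _ = N := by simp
  calc ∑ m ∈ Ioc 0 N, ∑ h ∈ F, ∑ n ∈ Ioc 0 N, (if h * f m = f n then (1:ℝ) else 0)
      ≤ ∑ m ∈ Ioc 0 N, (N:ℝ) := Finset.sum_le_sum h1
    _ = (N:ℝ)^2 := by simp [sq]

lemma sum_inner_V_le (F : Finset G) {x : ℝ} (hx : 0 < x) :
    ∑ h ∈ F, inner ℝ (V e f h x) (V e f 1 x) ≤ 1 := by
  unfold V
  simp_rw [real_inner_smul_left, real_inner_smul_right]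
  rw [← Finset.mul_sum, ← Finset.mul_sum]
  have h1 := sum_inner_S_le he f F ⌊x⌋₊
  have h2 : ((⌊x⌋₊:ℕ):ℝ)^2 ≤ x^2 := by
    have := Nat.floor_le hx.le
    gcongr
  have h3 : x⁻¹ * (x⁻¹ * ∑ h ∈ F, inner ℝ (S e f h ⌊x⌋₊) (S e f 1 ⌊x⌋₊)) ≤ x⁻¹ * (x⁻¹ * x^2) := by
    have := h1.trans h2
    gcongr
  refine h3.trans (le_of_eq ?_)
  field_simp

end basic

/-- the hypotheses on a multiplicative function with values in a group -/
structure IsMul (f : ℕ → G) : Prop where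
  one : f 1 = 1
  mul : ∀ m n : ℕ, 0 < m → 0 < n → Nat.Coprime m n → f (m * n) = f m * f n

section main
variable {e : G → H} (he : Orthonormal ℝ e) {f : ℕ → G} (hf : IsMul f)
include he hf

/-- Shift identity: the sum over multiples of `p`. -/
lemma sum_mult (N p : ℕ) (hp : p.Prime) :
    ‖(∑ n ∈ Ioc 0 N, (if p ∣ n then (1:ℝ) else 0) • e (f n)) - S e f (f p) (N / p)‖
      ≤ 2 * (N:ℝ) / (p:ℝ)^2 := by
  have hp0 : (0:ℝ) < p := by exact_mod_cast hp.pos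
  have h1 : (∑ n ∈ Ioc 0 N, (if p ∣ n then (1:ℝ) else 0) • e (f n))
      = ∑ m ∈ Ioc 0 (N / p), e (f (p * m)) := by
    have h2 : ∀ n : ℕ, (if p ∣ n then (1:ℝ) else 0) • e (f n) = if p ∣ n then e (f n) else 0 := by
      intro n; split_ifs <;> simp
    simp_rw [h2]
    rw [← Finset.sum_filter]
    symm
    refine Finset.sum_nbij (fun m => p * m) ?_ ?_ ?_ ?_
    · intro m hm
      rw [Finset.mem_filter, Finset.mem_Ioc]
      rw [Finset.mem_Ioc] at hm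
      refine ⟨⟨Nat.mul_pos hp.pos hm.1, ?_⟩, Dvd.intro _ rfl⟩
      calc p * m ≤ p * (N / p) := Nat.mul_le_mul_left _ hm.2
        _ ≤ N := Nat.mul_div_le N p
    · intro a _ b _ hab
      exact Nat.eq_of_mul_eq_mul_left hp.pos hab
    · intro n hn
      rw [Finset.mem_coe, Finset.mem_filter, Finset.mem_Ioc] at hn
      obtain ⟨⟨hn1, hn2⟩, ⟨m, rfl⟩⟩ := hn
      refine ⟨m, ?_, rfl⟩
      rw [Finset.mem_coe, Finset.mem_Ioc]
      refine ⟨Nat.pos_of_mul_pos_left hn1, ?_⟩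
      rw [Nat.le_div_iff_mul_le hp.pos, mul_comm]
      exact hn2
    · intro m _; rfl
  rw [h1]
  unfold S
  rw [← Finset.sum_sub_distrib]
  have h3 : ∀ m ∈ Ioc 0 (N / p), ‖e (f (p * m)) - e (f p * f m)‖ ≤ 2 * (if p ∣ m then (1:ℝ) else 0) := by
    intro m hm
    rw [Finset.mem_Ioc] at hm
    by_cases h : p ∣ m
    · rw [if_pos h, mul_one]
      refine (norm_sub_le _ _).trans ?_
      rw [norm_e he, norm_e he]
      norm_num
    · rw [if_neg h, mul_zero, hf.mul p m hp.pos hm.1 ((Nat.Prime.coprime_iff_not_dvd hp).2 h)]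
      simp
  refine (norm_sum_le _ _).trans ((Finset.sum_le_sum h3).trans ?_)
  rw [← Finset.mul_sum, sum_dvd]
  have h4 : ((N / p / p : ℕ) : ℝ) ≤ (N:ℝ) / (p:ℝ)^2 := by
    calc ((N / p / p : ℕ) : ℝ) ≤ ((N / p : ℕ) : ℝ) / p := Nat.cast_div_le
      _ ≤ ((N:ℝ) / p) / p := by
          gcongr
          exact Nat.cast_div_le
      _ = _ := by rw [div_div, sq]
  calc 2 * ((N / p / p : ℕ) : ℝ) ≤ 2 * ((N:ℝ) / (p:ℝ)^2) := by gcongr
    _ = _ := by ring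

/-- the main inequality, unnormalised form -/
theorem main_S (N : ℕ) (hN : 0 < N) (P : Finset ℕ) (hP : ∀ p ∈ P, p.Prime ∧ p^2 ≤ N) :
    ∑ p ∈ P, (p:ℝ) * ‖S e f (f p) (N / p) - (1/(p:ℝ)) • S e f 1 N‖^2
      ≤ (4 + 8 * ∑' n : ℕ, 1 / (n:ℝ)^2) * (N:ℝ)^2 := by
  have hN' : (0:ℝ) < N := by exact_mod_cast hN
  have hsum : Summable (fun n : ℕ => 1 / (n:ℝ)^2) := Real.summable_one_div_nat_pow.2 (by norm_num)
  have hdual := dual N hN P hP (fun n => e (f n))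
  have h0 : ∑ n ∈ Ioc 0 N, ‖e (f n)‖^2 = N := by simp [norm_e he]
  rw [h0] at hdual
  have h1 : ∀ p ∈ P, (p:ℝ) * ‖S e f (f p) (N / p) - (1/(p:ℝ)) • S e f 1 N‖^2
      ≤ 2 * ((p:ℝ) * ‖∑ n ∈ Ioc 0 N, A n p • e (f n)‖^2) + 8 * (N:ℝ)^2 * (1 / (p:ℝ)^2) := by
    intro p hp
    have hpp := (hP p hp).1
    have hp0 : (0:ℝ) < p := by exact_mod_cast hpp.pos
    have hp1 : (1:ℝ) ≤ p := by exact_mod_cast hpp.one_le
    have h2 : ∑ n ∈ Ioc 0 N, A n p • e (f n)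
        = (∑ n ∈ Ioc 0 N, (if p ∣ n then (1:ℝ) else 0) • e (f n)) - (1/(p:ℝ)) • S e f 1 N := by
      unfold A S
      rw [Finset.smul_sum, ← Finset.sum_sub_distrib]
      refine Finset.sum_congr rfl fun n _ => ?_
      rw [sub_smul, one_mul]
    set B := (∑ n ∈ Ioc 0 N, (if p ∣ n then (1:ℝ) else 0) • e (f n)) with hB
    have h3 := sum_mult he hf N p hpp
    rw [← hB] at h3
    have h4 : S e f (f p) (N / p) - (1/(p:ℝ)) • S e f 1 N
        = (∑ n ∈ Ioc 0 N, A n p • e (f n)) - (B - S e f (f p) (N / p)) := by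
      rw [h2]; abel
    have h5 : ‖S e f (f p) (N / p) - (1/(p:ℝ)) • S e f 1 N‖^2
        ≤ 2 * ‖∑ n ∈ Ioc 0 N, A n p • e (f n)‖^2 + 2 * (2 * (N:ℝ) / (p:ℝ)^2)^2 := by
      rw [h4]
      have h6 := norm_sub_le (∑ n ∈ Ioc 0 N, A n p • e (f n)) (B - S e f (f p) (N / p))
      set u := ‖∑ n ∈ Ioc 0 N, A n p • e (f n)‖
      set v := ‖B - S e f (f p) (N / p)‖
      set w := ‖∑ n ∈ Ioc 0 N, A n p • e (f n) - (B - S e f (f p) (N / p))‖
      have hw : 0 ≤ w := norm_nonneg _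
      have hv : 0 ≤ v := norm_nonneg _
      have h7 : w^2 ≤ (u+v)^2 := by gcongr
      have h8 : v^2 ≤ (2 * (N:ℝ) / (p:ℝ)^2)^2 := by gcongr
      nlinarith [sq_nonneg (u - v)]
    have h9 : (p:ℝ) * (2 * (2 * (N:ℝ) / (p:ℝ)^2)^2) ≤ 8 * (N:ℝ)^2 * (1 / (p:ℝ)^2) := by
      have h10 : (p:ℝ) * (2 * (2 * (N:ℝ) / (p:ℝ)^2)^2) = 8 * (N:ℝ)^2 * (1 / (p:ℝ)^3) := by
        field_simp
        ring
      rw [h10]
      have h11 : 1 / (p:ℝ)^3 ≤ 1 / (p:ℝ)^2 := by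
        apply one_div_le_one_div_of_le (by positivity)
        exact pow_le_pow_right₀ hp1 (by norm_num)
      gcongr
    calc (p:ℝ) * ‖S e f (f p) (N / p) - (1/(p:ℝ)) • S e f 1 N‖^2
        ≤ (p:ℝ) * (2 * ‖∑ n ∈ Ioc 0 N, A n p • e (f n)‖^2 + 2 * (2 * (N:ℝ) / (p:ℝ)^2)^2) := by
          gcongr
      _ = 2 * ((p:ℝ) * ‖∑ n ∈ Ioc 0 N, A n p • e (f n)‖^2)
          + (p:ℝ) * (2 * (2 * (N:ℝ) / (p:ℝ)^2)^2) := by ring
      _ ≤ _ := by gcongr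
  refine (Finset.sum_le_sum h1).trans ?_
  rw [Finset.sum_add_distrib, ← Finset.mul_sum, ← Finset.mul_sum]
  have h12 : ∑ p ∈ P, 1 / (p:ℝ)^2 ≤ ∑' n : ℕ, 1 / (n:ℝ)^2 :=
    hsum.sum_le_tsum P (fun n _ => by positivity)
  have h13 : 8 * (N:ℝ)^2 * ∑ p ∈ P, 1 / (p:ℝ)^2 ≤ 8 * (N:ℝ)^2 * ∑' n : ℕ, 1 / (n:ℝ)^2 := by
    gcongr
  calc 2 * ∑ p ∈ P, ((p:ℝ) * ‖∑ n ∈ Ioc 0 N, A n p • e (f n)‖^2)
        + 8 * (N:ℝ)^2 * ∑ p ∈ P, 1 / (p:ℝ)^2
      ≤ 2 * (2 * N * N) + 8 * (N:ℝ)^2 * ∑' n : ℕ, 1 / (n:ℝ)^2 := by gcongr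
    _ = _ := by ring

/-- the constant in the main inequality -/
noncomputable def CC : ℝ := 4 + 8 * ∑' n : ℕ, 1 / (n:ℝ)^2

omit he hf in
lemma CC_pos : 0 < CC := by
  unfold CC
  have : 0 ≤ ∑' n : ℕ, 1 / (n:ℝ)^2 := tsum_nonneg fun n => by positivity
  linarith

/-- the main inequality, normalised form -/
theorem main_V (x : ℝ) (hx : 1 ≤ x) (P : Finset ℕ) (hP : ∀ p ∈ P, p.Prime ∧ (p:ℝ)^2 ≤ x) :
    ∑ p ∈ P, (1/(p:ℝ)) * ‖V e f (f p) (x / p) - V e f 1 x‖^2 ≤ CC := by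
  have hx0 : 0 < x := by linarith
  have hN : 0 < ⌊x⌋₊ := Nat.floor_pos.2 hx
  have hP' : ∀ p ∈ P, p.Prime ∧ p^2 ≤ ⌊x⌋₊ := by
    intro p hp
    refine ⟨(hP p hp).1, ?_⟩
    apply Nat.le_floor
    have := (hP p hp).2
    push_cast
    exact this
  have h1 := main_S he hf ⌊x⌋₊ hN P hP'
  have h2 : ∀ p ∈ P, (1/(p:ℝ)) * ‖V e f (f p) (x / p) - V e f 1 x‖^2
      = x⁻¹^2 * ((p:ℝ) * ‖S e f (f p) (⌊x⌋₊ / p) - (1/(p:ℝ)) • S e f 1 ⌊x⌋₊‖^2) := by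
    intro p hp
    have hp0 : (0:ℝ) < p := by exact_mod_cast (hP p hp).1.pos
    have h3 : V e f (f p) (x / p) - V e f 1 x
        = ((p:ℝ) * x⁻¹) • (S e f (f p) (⌊x⌋₊ / p) - (1/(p:ℝ)) • S e f 1 ⌊x⌋₊) := by
      unfold V
      rw [Nat.floor_div_natCast, smul_sub, smul_smul]
      congr 2
      · rw [inv_div, div_eq_mul_inv]
      · field_simp
    rw [h3, norm_smul, Real.norm_eq_abs, mul_pow, sq_abs]
    field_simp
  rw [Finset.sum_congr rfl h2, ← Finset.mul_sum]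
  have h4 : ((⌊x⌋₊:ℕ):ℝ)^2 ≤ x^2 := by
    have := Nat.floor_le hx0.le
    gcongr
  have h5 : (0:ℝ) < 4 + 8 * ∑' n : ℕ, 1 / (n:ℝ)^2 := CC_pos
  calc x⁻¹^2 * ∑ p ∈ P, ((p:ℝ) * ‖S e f (f p) (⌊x⌋₊ / p) - (1/(p:ℝ)) • S e f 1 ⌊x⌋₊‖^2)
      ≤ x⁻¹^2 * ((4 + 8 * ∑' n : ℕ, 1 / (n:ℝ)^2) * ((⌊x⌋₊:ℕ):ℝ)^2) := by gcongr
    _ ≤ x⁻¹^2 * ((4 + 8 * ∑' n : ℕ, 1 / (n:ℝ)^2) * x^2) := by gcongr
    _ = CC := by
      unfold CC
      field_simp

end main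

end Pool.Agent.TH805.RZ
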