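import Mathlib
import Pool.Agent.TH805.RZ.Vec

set_option autoImplicit false
open Finset Filter Topology

namespace Pool.Agent.TH805.RZ

/-- a sequence that can be approximated arbitrarily well by convergent sequences converges -/
lemma conv_of_approx (a : ℕ → ℝ) (h : ∀ ε : ℝ, 0 < ε → ∃ (b : ℕ → ℝ) (c : ℝ),
    Tendsto b atTop (𝓝 c) ∧ ∀ᶠ N : ℕ in atTop, |a N - b N| ≤ ε) :
    ∃ d : ℝ, Tendsto a atTop (𝓝 d) := by
  apply cauchySeq_tendsto_of_complete
  rw [Metric.cauchySeq_iff]
  intro ε hε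
  obtain ⟨b, c, hb, hab⟩ := h (ε/5) (by linarith)
  have h1 : ∀ᶠ N : ℕ in atTop, dist (b N) c < ε/5 := hb (Metric.ball_mem_nhds c (by linarith))
  obtain ⟨N0, hN0⟩ := (hab.and h1).exists_forall_of_atTop
  refine ⟨N0, fun m hm n hn => ?_⟩
  obtain ⟨m1, m2⟩ := hN0 m hm
  obtain ⟨n1, n2⟩ := hN0 n hn
  rw [Real.dist_eq] at *
  rw [abs_le] at m1 n1
  rw [abs_lt] at m2 n2 ⊢
  constructor <;> linarith

/-- densities of periodic sets exist -/
lemma periodic_density (Q : ℕ → Prop) [DecidablePred Q] (M : ℕ) (hM : 0 < M)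
    (hQ : ∀ n, Q (n + M) ↔ Q n) :
    ∃ c : ℝ, Tendsto (fun N : ℕ => (((Ioc 0 N).filter Q).card : ℝ) / N) atTop (𝓝 c) := by
  set g : ℕ → ℕ := fun N => ((Ioc 0 N).filter Q).card with hg
  have hper : Function.Periodic Q M := fun n => propext (hQ n)
  have h1 : ∀ N, g (N + M) = g N + M.count Q := by
    intro N
    have hu : Ioc 0 (N + M) = Ioc 0 N ∪ Ico (N+1) (N + 1 + M) := by
      ext a
      simp only [Finset.mem_union, Finset.mem_Ioc, Finset.mem_Ico]
      omega
    have hd : Disjoint ((Ioc 0 N).filter Q) ((Ico (N+1) (N + 1 + M)).filter Q) := by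
      rw [Finset.disjoint_left]
      intro a ha hb
      simp only [Finset.mem_filter, Finset.mem_Ioc, Finset.mem_Ico] at ha hb
      omega
    rw [hg]
    simp only
    rw [hu, Finset.filter_union, Finset.card_union_of_disjoint hd,
      Nat.filter_Ico_card_eq_of_periodic _ _ _ hper]
  have h2 : ∀ k r, g (r + k * M) = g r + k * M.count Q := by
    intro k r
    induction k with
    | zero => simp
    | succ k ih =>
      have : r + (k+1) * M = (r + k * M) + M := by ring
      rw [this, h1, ih]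
      ring
  have hc : M.count Q ≤ M := Nat.count_le _
  have hM' : (0:ℝ) < M := by exact_mod_cast hM
  refine ⟨(M.count Q : ℝ) / M, ?_⟩
  rw [tendsto_iff_norm_sub_tendsto_zero]
  have h3 : Tendsto (fun N : ℕ => (M:ℝ) / N) atTop (𝓝 0) :=
    tendsto_const_nhds.div_atTop tendsto_natCast_atTop_atTop
  refine squeeze_zero' (Eventually.of_forall fun N => norm_nonneg _) ?_ h3
  filter_upwards [eventually_gt_atTop 0] with N hN
  have hN' : (0:ℝ) < N := by exact_mod_cast hN
  have h4 : N = N % M + (N / M) * M := by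
    have := Nat.mod_add_div N M
    rw [mul_comm] at this
    exact this.symm
  have h5 : g N = g (N % M) + (N / M) * M.count Q := by
    conv_lhs => rw [h4]
    exact h2 _ _
  have h6 : g (N % M) ≤ N % M := by
    rw [hg]
    simp only
    calc ((Ioc 0 (N % M)).filter Q).card ≤ (Ioc 0 (N % M)).card := Finset.card_filter_le _ _
      _ = N % M := by simp
  have h7 : N % M < M := Nat.mod_lt _ hM
  have h4' : (N:ℝ) = ((N % M : ℕ):ℝ) + ((N / M : ℕ):ℝ) * M := by exact_mod_cast h4
  have h5' : (g N:ℝ) = (g (N % M) : ℝ) + ((N / M : ℕ):ℝ) * (M.count Q : ℝ) := by exact_mod_cast h5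
  have h6' : (g (N % M) : ℝ) ≤ ((N % M : ℕ):ℝ) := by exact_mod_cast h6
  have h7' : ((N % M : ℕ):ℝ) < M := by exact_mod_cast h7
  have hc' : (M.count Q : ℝ) ≤ M := by exact_mod_cast hc
  have hc0 : (0:ℝ) ≤ (M.count Q : ℝ) := by positivity
  have hr0 : (0:ℝ) ≤ ((N % M : ℕ):ℝ) := by positivity
  have hg0 : (0:ℝ) ≤ (g (N % M) : ℝ) := Nat.cast_nonneg _
  have h8 : (g N : ℝ) / N - (M.count Q : ℝ) / M
      = ((g (N % M) : ℝ) - (M.count Q : ℝ) * (((N % M : ℕ):ℝ)) / M) / N := by
    have : (g N : ℝ) - (M.count Q : ℝ) / M * N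
        = (g (N % M) : ℝ) - (M.count Q : ℝ) * (((N % M : ℕ):ℝ)) / M := by
      rw [h5']
      have hgen : ∀ G0 c0 r0 k0 N0 : ℝ, N0 = r0 + k0 * M →
          G0 + k0 * c0 - c0 / M * N0 = G0 - c0 * r0 / M := by
        intro G0 c0 r0 k0 N0 h
        rw [h]
        field_simp
        ring
      exact hgen _ _ _ _ _ h4'
    rw [← this, sub_div, mul_div_assoc, div_self hN'.ne', mul_one]
  rw [Real.norm_eq_abs]
  have h9 : |(g (N % M) : ℝ) - (M.count Q : ℝ) * (((N % M : ℕ):ℝ)) / M| ≤ M := by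
    have h10 : (M.count Q : ℝ) * (((N % M : ℕ):ℝ)) / M ≤ ((N % M : ℕ):ℝ) := by
      rw [div_le_iff₀ hM', mul_comm]
      exact mul_le_mul_of_nonneg_left hc' hr0
    have h11 : 0 ≤ (M.count Q : ℝ) * (((N % M : ℕ):ℝ)) / M := by positivity
    rw [abs_le]
    constructor <;> linarith
  show |(g N : ℝ) / N - (M.count Q : ℝ) / M| ≤ (M:ℝ) / N
  rw [h8, abs_div, abs_of_pos hN']
  gcongr

variable {G : Type*} [Group G]

lemma squarefree_mem {f : ℕ → G} (hf : IsMul f) (K : Subgroup G) (b : ℕ) (hb : Squarefree b)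
    (h : ∀ p, p.Prime → p ∣ b → f p ∈ K) : f b ∈ K := by
  induction b using Nat.strong_induction_on with
  | _ b ih =>
    by_cases hb1 : b = 1
    · subst hb1
      rw [hf.one]
      exact K.one_mem
    · have hb0 : b ≠ 0 := hb.ne_zero
      have hp : (b.minFac).Prime := Nat.minFac_prime hb1
      obtain ⟨c, hc⟩ := Nat.minFac_dvd b
      have hsq : Squarefree (b.minFac * c) := by rw [← hc]; exact hb
      obtain ⟨hcop, _, hsc⟩ := Nat.squarefree_mul_iff.1 hsq
      have hc0 : 0 < c := Nat.pos_of_ne_zero (by rintro rfl; simp at hc; exact hb0 hc)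
      have hlt : c < b := by
        rw [hc]
        have := hp.two_le
        nlinarith
      rw [hc, hf.mul _ _ hp.pos hc0 hcop]
      refine K.mul_mem (h _ hp (Nat.minFac_dvd b)) (ih c hlt hsc fun p hpp hpc => h p hpp ?_)
      rw [hc]
      exact Dvd.dvd.mul_left hpc _

/-- `n` is bad at the prime `p` -/
def badp (f : ℕ → G) (K : Subgroup G) (y p n : ℕ) : Prop :=
  p.Prime ∧ ((p ≤ y ∧ p^(y+1) ∣ n) ∨ (y < p ∧ p^2 ∣ n) ∨ (y < p ∧ f p ∉ K ∧ p ∣ n))

lemma not_bad {f : ℕ → G} (hf : IsMul f) (K : Subgroup G) (g : G) (y n : ℕ) (hn : 0 < n)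
    (hbad : ∀ p, ¬ badp f K y p n) :
    (f n * g⁻¹ ∈ K ↔ f (Nat.gcd n (y.factorial ^ y)) * g⁻¹ ∈ K) := by
  set M := y.factorial ^ y with hM
  have hMpos : 0 < M := pow_pos (Nat.factorial_pos y) y
  set a := Nat.gcd n M with ha
  have ha0 : 0 < a := Nat.gcd_pos_of_pos_left _ hn
  obtain ⟨b, hb⟩ := Nat.gcd_dvd_left n M
  rw [← ha] at hb
  have hb0 : 0 < b := Nat.pos_of_ne_zero (by rintro rfl; simp at hb; omega)
  have hba : b = n / a := by rw [hb, Nat.mul_div_cancel_left _ ha0]
  -- every prime factor of `b` is `> y`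
  have hlarge : ∀ p, p.Prime → p ∣ b → y < p := by
    intro p hp hpb
    by_contra hle
    push Not at hle
    have h1 : Nat.Coprime (n / a) (M / a) := Nat.coprime_div_gcd_div_gcd ha0
    rw [← hba] at h1
    have h2 : Nat.Coprime p (M / a) := Nat.Coprime.coprime_dvd_left hpb h1
    have h3 : p^y ∣ M := by
      rw [hM]
      exact pow_dvd_pow_of_dvd ((hp.dvd_factorial).2 hle) y
    have h4 : M = a * (M / a) := (Nat.mul_div_cancel' (Nat.gcd_dvd_right n M)).symm
    rw [h4] at h3
    have h5 : p^y ∣ a := (Nat.Coprime.pow_left y h2).dvd_of_dvd_mul_right h3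
    have h6 : p^(y+1) ∣ n := by
      rw [hb, pow_succ]
      exact mul_dvd_mul h5 hpb
    exact hbad p ⟨hp, Or.inl ⟨hle, h6⟩⟩
  have hbn : b ∣ n := by rw [hb]; exact Dvd.intro_left _ rfl
  have hsq : Squarefree b := by
    rw [Nat.squarefree_iff_prime_squarefree]
    intro p hp hpp
    have h1 : p ∣ b := dvd_trans (Dvd.intro _ rfl) hpp
    refine hbad p ⟨hp, Or.inr (Or.inl ⟨hlarge p hp h1, ?_⟩)⟩
    rw [sq]
    exact hpp.trans hbn
  have hfK : f b ∈ K := by
    refine squarefree_mem hf K b hsq fun p hp hpb => ?_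
    by_contra hcon
    exact hbad p ⟨hp, Or.inr (Or.inr ⟨hlarge p hp hpb, hcon, hpb.trans hbn⟩)⟩
  have hcop : Nat.Coprime b a := by
    refine Nat.Coprime.symm (Nat.coprime_of_dvd fun p hp hpa hpb => ?_)
    have h1 := hlarge p hp hpb
    have h2 : p ∣ y.factorial := hp.dvd_of_dvd_pow (hpa.trans (Nat.gcd_dvd_right n M))
    have h3 := (hp.dvd_factorial).1 h2
    omega
  have hfn : f n = f b * f a := by
    rw [hb, mul_comm, hf.mul b a hb0 ha0 hcop]
  rw [hfn, mul_assoc]
  exact Subgroup.mul_mem_cancel_left _ hfK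

open Classical in
/-- weight of the prime `p` in the count of bad integers -/
noncomputable def uu (f : ℕ → G) (K : Subgroup G) (y p : ℕ) : ℝ :=
  if p.Prime then (if p ≤ y then 1/(p:ℝ)^(y+1) else 1/(p:ℝ)^2 + (if f p ∉ K then 1/(p:ℝ) else 0))
  else 0

open Classical in
lemma count_badp (f : ℕ → G) (K : Subgroup G) (y p N : ℕ) :
    (((Ioc 0 N).filter (badp f K y p)).card : ℝ) ≤ N * uu f K y p := by
  have hcount : ∀ d : ℕ, (((Ioc 0 N).filter (fun n => d ∣ n)).card : ℝ) ≤ N * (1/(d:ℝ)) := by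
    intro d
    rw [Nat.Ioc_filter_dvd_card_eq_div]
    refine (Nat.cast_div_le).trans (le_of_eq ?_)
    ring
  by_cases hp : p.Prime
  · unfold uu
    rw [if_pos hp]
    by_cases hpy : p ≤ y
    · rw [if_pos hpy]
      have h1 : (Ioc 0 N).filter (badp f K y p) ⊆ (Ioc 0 N).filter (fun n => p^(y+1) ∣ n) := by
        intro n hn
        rw [Finset.mem_filter] at hn ⊢
        refine ⟨hn.1, ?_⟩
        rcases hn.2.2 with h | h | h
        · exact h.2
        · omega
        · omega
      have h2 := hcount (p^(y+1))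
      push_cast at h2
      refine le_trans ?_ h2
      exact_mod_cast Finset.card_le_card h1
    · rw [if_neg hpy]
      by_cases hfp : f p ∉ K
      · rw [if_pos hfp]
        have h1 : (Ioc 0 N).filter (badp f K y p) ⊆
            (Ioc 0 N).filter (fun n => p^2 ∣ n) ∪ (Ioc 0 N).filter (fun n => p ∣ n) := by
          intro n hn
          rw [Finset.mem_union, Finset.mem_filter, Finset.mem_filter]
          rw [Finset.mem_filter] at hn
          rcases hn.2.2 with h | h | h
          · omega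
          · exact Or.inl ⟨hn.1, h.2⟩
          · exact Or.inr ⟨hn.1, h.2.2⟩
        have h2 := hcount (p^2)
        have h3 := hcount p
        push_cast at h2
        have h4 : (((Ioc 0 N).filter (badp f K y p)).card : ℝ)
            ≤ (((Ioc 0 N).filter (fun n => p^2 ∣ n)).card : ℝ)
              + (((Ioc 0 N).filter (fun n => p ∣ n)).card : ℝ) := by
          exact_mod_cast (Finset.card_le_card h1).trans (Finset.card_union_le _ _)
        rw [mul_add]
        linarith
      · rw [if_neg hfp]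
        have h1 : (Ioc 0 N).filter (badp f K y p) ⊆ (Ioc 0 N).filter (fun n => p^2 ∣ n) := by
          intro n hn
          rw [Finset.mem_filter] at hn ⊢
          refine ⟨hn.1, ?_⟩
          rcases hn.2.2 with h | h | h
          · omega
          · exact h.2
          · exact absurd h.2.1 hfp
        have h2 := hcount (p^2)
        push_cast at h2
        rw [add_zero]
        refine le_trans ?_ h2
        exact_mod_cast Finset.card_le_card h1
  · have h1 : (Ioc 0 N).filter (badp f K y p) = ∅ := by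
      rw [Finset.filter_eq_empty_iff]
      intro n _ h
      exact hp h.1
    unfold uu
    rw [if_neg hp, h1]
    simp

lemma uu_nonneg (f : ℕ → G) (K : Subgroup G) (y p : ℕ) : 0 ≤ uu f K y p := by
  unfold uu
  split_ifs <;> positivity

open Classical in
lemma uu_tendsto (f : ℕ → G) (K : Subgroup G)
    (hK : ∃ C : ℝ, ∀ P : Finset ℕ, (∀ p ∈ P, p.Prime ∧ f p ∉ K) → ∑ p ∈ P, 1 / (p:ℝ) ≤ C) :
    (∀ y, 1 ≤ y → Summable (uu f K y)) ∧
    Tendsto (fun y : ℕ => ∑' p, uu f K y p) atTop (𝓝 0) := by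
  obtain ⟨C, hC⟩ := hK
  have hsum1 : Summable (fun n : ℕ => 1 / (n:ℝ)^2) := Real.summable_one_div_nat_pow.2 (by norm_num)
  set w : ℕ → ℝ := fun p => if p.Prime ∧ f p ∉ K then 1/(p:ℝ) else 0 with hw
  have hw0 : ∀ p, 0 ≤ w p := by
    intro p
    rw [hw]
    simp only
    split_ifs <;> positivity
  have hsum2 : Summable w := by
    refine summable_of_sum_le (c := C) hw0 fun P => ?_
    rw [hw]
    simp only
    rw [← Finset.sum_filter]
    refine hC _ fun p hp => ?_
    rw [Finset.mem_filter] at hp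
    exact hp.2
  have hbound : ∀ y, 1 ≤ y → ∀ p, ‖uu f K y p‖ ≤ 1 / (p:ℝ)^2 + w p := by
    intro y hy p
    rw [Real.norm_eq_abs, abs_of_nonneg (uu_nonneg f K y p)]
    unfold uu
    by_cases hp : p.Prime
    · have hp1 : (1:ℝ) ≤ p := by exact_mod_cast hp.one_le
      have hp0 : (0:ℝ) < p := by linarith
      rw [if_pos hp]
      by_cases hpy : p ≤ y
      · rw [if_pos hpy]
        have h1 : 1/(p:ℝ)^(y+1) ≤ 1/(p:ℝ)^2 := by
          apply one_div_le_one_div_of_le (by positivity)
          exact pow_le_pow_right₀ hp1 (by omega)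
        have := hw0 p
        linarith
      · rw [if_neg hpy]
        rw [hw]
        simp only [hp, true_and]
        exact le_rfl
    · rw [if_neg hp]
      have := hw0 p
      positivity
  constructor
  · intro y hy
    exact Summable.of_norm_bounded (hsum1.add hsum2) (hbound y hy)
  · have h0 : (0:ℝ) = ∑' p : ℕ, (0:ℝ) := by simp
    rw [h0]
    refine tendsto_tsum_of_dominated_convergence (hsum1.add hsum2) ?_ ?_
    · intro p
      by_cases hp : p.Prime
      · have hp2 : (2:ℝ) ≤ p := by exact_mod_cast hp.two_le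
        have hp0 : (0:ℝ) < p := by linarith
        have h1 : Tendsto (fun y : ℕ => (1/(p:ℝ))^(y+1)) atTop (𝓝 0) := by
          refine (tendsto_pow_atTop_nhds_zero_of_lt_one (by positivity) ?_).comp (tendsto_add_atTop_nat 1)
          rw [div_lt_one hp0]
          linarith
        refine h1.congr' ?_
        filter_upwards [eventually_ge_atTop p] with y hy
        unfold uu
        rw [if_pos hp, if_pos hy, one_div_pow]
      · unfold uu
        simp only [if_neg hp]
        exact tendsto_const_nhds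
    · filter_upwards [eventually_ge_atTop 1] with y hy p
      exact hbound y hy p

open Classical in
/-- coset densities exist -/
theorem coset_density {f : ℕ → G} (hf : IsMul f) (K : Subgroup G) (g : G)
    (hK : ∃ C : ℝ, ∀ P : Finset ℕ, (∀ p ∈ P, p.Prime ∧ f p ∉ K) → ∑ p ∈ P, 1 / (p:ℝ) ≤ C) :
    ∃ d : ℝ, Tendsto (fun N : ℕ => (((Ioc 0 N).filter (fun n => f n * g⁻¹ ∈ K)).card : ℝ) / N)
      atTop (𝓝 d) := by
  obtain ⟨hs, ht⟩ := uu_tendsto f K hK
  apply conv_of_approx
  intro ε hε
  obtain ⟨y, hy1, hy2⟩ := ((ht.eventually (gt_mem_nhds hε)).and (eventually_ge_atTop 1)).exists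
  set M := y.factorial ^ y with hM
  have hMpos : 0 < M := pow_pos (Nat.factorial_pos y) y
  obtain ⟨c, hc⟩ := periodic_density (fun n => f (Nat.gcd n M) * g⁻¹ ∈ K) M hMpos (by
    intro n
    simp)
  refine ⟨_, c, hc, ?_⟩
  filter_upwards [eventually_gt_atTop 0] with N hN
  have hN' : (0:ℝ) < N := by exact_mod_cast hN
  set E := (Ioc 0 N).filter (fun n => f n * g⁻¹ ∈ K) with hE
  set E' := (Ioc 0 N).filter (fun n => f (Nat.gcd n M) * g⁻¹ ∈ K) with hE'
  set Bd := (Ioc 0 N).filter (fun n => ∃ p, badp f K y p n) with hBd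
  have h1 : E ⊆ E' ∪ Bd := by
    intro n hn
    rw [hE, Finset.mem_filter] at hn
    rw [Finset.mem_union, hE', hBd, Finset.mem_filter, Finset.mem_filter]
    by_cases hb : ∃ p, badp f K y p n
    · exact Or.inr ⟨hn.1, hb⟩
    · left
      push Not at hb
      exact ⟨hn.1, (not_bad hf K g y n (Finset.mem_Ioc.1 hn.1).1 hb).1 hn.2⟩
  have h2 : E' ⊆ E ∪ Bd := by
    intro n hn
    rw [hE', Finset.mem_filter] at hn
    rw [Finset.mem_union, hE, hBd, Finset.mem_filter, Finset.mem_filter]
    by_cases hb : ∃ p, badp f K y p n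
    · exact Or.inr ⟨hn.1, hb⟩
    · left
      push Not at hb
      exact ⟨hn.1, (not_bad hf K g y n (Finset.mem_Ioc.1 hn.1).1 hb).2 hn.2⟩
  have h3 : (E.card : ℝ) ≤ E'.card + Bd.card := by
    exact_mod_cast (Finset.card_le_card h1).trans (Finset.card_union_le _ _)
  have h4 : (E'.card : ℝ) ≤ E.card + Bd.card := by
    exact_mod_cast (Finset.card_le_card h2).trans (Finset.card_union_le _ _)
  have h5 : Bd ⊆ (Finset.range (N+1)).biUnion (fun p => (Ioc 0 N).filter (badp f K y p)) := by
    intro n hn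
    rw [hBd, Finset.mem_filter] at hn
    obtain ⟨hn1, p, hp⟩ := hn
    rw [Finset.mem_Ioc] at hn1
    rw [Finset.mem_biUnion]
    refine ⟨p, ?_, ?_⟩
    · rw [Finset.mem_range]
      have hpn : p ∣ n := by
        rcases hp.2 with h | h | h
        · exact (dvd_pow_self p (by omega)).trans h.2
        · exact (dvd_pow_self p (by omega)).trans h.2
        · exact h.2.2
      have := Nat.le_of_dvd hn1.1 hpn
      omega
    · rw [Finset.mem_filter, Finset.mem_Ioc]
      exact ⟨hn1, hp⟩
  have h6 : (Bd.card : ℝ) ≤ N * ε := by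
    calc (Bd.card : ℝ) ≤ ((∑ p ∈ Finset.range (N+1), ((Ioc 0 N).filter (badp f K y p)).card : ℕ) : ℝ) := by
          exact_mod_cast (Finset.card_le_card h5).trans Finset.card_biUnion_le
      _ = ∑ p ∈ Finset.range (N+1), (((Ioc 0 N).filter (badp f K y p)).card : ℝ) := by
          rw [Nat.cast_sum]
      _ ≤ ∑ p ∈ Finset.range (N+1), N * uu f K y p :=
          Finset.sum_le_sum fun p _ => count_badp f K y p N
      _ = N * ∑ p ∈ Finset.range (N+1), uu f K y p := by rw [Finset.mul_sum]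
      _ ≤ N * ∑' p, uu f K y p := by
          gcongr
          exact (hs y hy2).sum_le_tsum _ fun p _ => uu_nonneg f K y p
      _ ≤ N * ε := by gcongr
  have h7 : (E.card : ℝ) / N - (E'.card : ℝ) / N = ((E.card : ℝ) - E'.card) / N := by ring
  rw [h7, abs_div, abs_of_pos hN', div_le_iff₀ hN', abs_le]
  constructor <;> linarith

end Pool.Agent.TH805.RZ
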