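import Mathlib
import Pool.Agent.Helper923.PNT

set_option autoImplicit false
open Finset Filter Topology

namespace Pool.Agent.TH805.RZ

/-- primes in the interval `(x, y]` -/
noncomputable def PI (x y : ℝ) : Finset ℕ := (Ioc ⌊x⌋₊ ⌊y⌋₊).filter Nat.Prime

lemma mem_PI {x y : ℝ} (hx : 0 ≤ x) (hy : 0 ≤ y) {p : ℕ} :
    p ∈ PI x y ↔ p.Prime ∧ x < p ∧ (p:ℝ) ≤ y := by
  unfold PI
  rw [Finset.mem_filter, Finset.mem_Ioc, Nat.floor_lt hx, Nat.le_floor_iff hy]
  tauto

lemma card_PI {x y : ℝ} (hxy : x ≤ y) :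
    ((PI x y).card : ℝ) = (Nat.primeCounting ⌊y⌋₊ : ℝ) - Nat.primeCounting ⌊x⌋₊ := by
  have hf : ⌊x⌋₊ ≤ ⌊y⌋₊ := Nat.floor_le_floor hxy
  have h1 : Nat.primeCounting ⌊y⌋₊ = Nat.primeCounting ⌊x⌋₊ + (PI x y).card := by
    unfold Nat.primeCounting Nat.primeCounting' PI
    rw [Nat.count_eq_card_filter_range, Nat.count_eq_card_filter_range]
    have hu : Finset.range (⌊y⌋₊ + 1) = Finset.range (⌊x⌋₊ + 1) ∪ Ioc ⌊x⌋₊ ⌊y⌋₊ := by
      ext a
      simp only [Finset.mem_range, Finset.mem_union, Finset.mem_Ioc]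
      omega
    have hd : Disjoint ((Finset.range (⌊x⌋₊ + 1)).filter Nat.Prime)
        ((Ioc ⌊x⌋₊ ⌊y⌋₊).filter Nat.Prime) := by
      rw [Finset.disjoint_left]
      intro a ha hb
      simp only [Finset.mem_filter, Finset.mem_range, Finset.mem_Ioc] at ha hb
      omega
    rw [hu, Finset.filter_union, Finset.card_union_of_disjoint hd]
  rw [h1]
  push_cast
  ring

/-- the sum of reciprocals over the primes in `(x, ρ x]` is at least `c / log x` -/
lemma block_lower (ρ : ℝ) (hρ : 1 < ρ) :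
    ∃ c : ℝ, 0 < c ∧ ∀ᶠ x : ℝ in atTop, c / Real.log x ≤ ∑ p ∈ PI x (ρ * x), 1 / (p:ℝ) := by
  have hρ0 : 0 < ρ := by linarith
  have h1 := Pool.Agent.Helper923.PNT.pi_tendsto
  have h2 : Tendsto (fun x : ℝ => ρ * x) atTop atTop := tendsto_id.const_mul_atTop hρ0
  have h3 := h1.comp h2
  have h4 : Tendsto (fun x : ℝ => Real.log x / Real.log (ρ * x)) atTop (𝓝 1) := by
    have ha : Tendsto (fun x : ℝ => 1 + Real.log ρ * (Real.log x)⁻¹) atTop (𝓝 (1 + Real.log ρ * 0)) :=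
      tendsto_const_nhds.add ((tendsto_inv_atTop_zero.comp Real.tendsto_log_atTop).const_mul _)
    have hb : Tendsto (fun x : ℝ => (1 + Real.log ρ * (Real.log x)⁻¹)⁻¹) atTop (𝓝 1) := by
      have := ha.inv₀ (by simp)
      simpa using this
    refine hb.congr' ?_
    filter_upwards [eventually_gt_atTop (1:ℝ)] with x hx
    have hx0 : 0 < x := by linarith
    have hl : 0 < Real.log x := Real.log_pos hx
    rw [Real.log_mul hρ0.ne' hx0.ne']
    have hl2 : 0 < Real.log ρ := Real.log_pos hρ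
    field_simp
    ring_nf
  have h5 : Tendsto (fun x : ℝ => ((PI x (ρ * x)).card : ℝ) * Real.log x / x) atTop (𝓝 (ρ - 1)) := by
    have h6 := ((h3.mul h4).const_mul ρ).sub h1
    have h7 : ρ * (1 * 1) - 1 = ρ - 1 := by ring
    rw [h7] at h6
    refine h6.congr' ?_
    filter_upwards [eventually_gt_atTop (1:ℝ)] with x hx
    have hx0 : 0 < x := by linarith
    have hl : 0 < Real.log x := Real.log_pos hx
    have hl3 : 0 < Real.log (ρ * x) := Real.log_pos (by nlinarith)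
    rw [card_PI (by nlinarith : x ≤ ρ * x)]
    simp only [Function.comp]
    field_simp
  have hη : 0 < ρ - 1 := by linarith
  refine ⟨(ρ - 1) / (2 * ρ), by positivity, ?_⟩
  have h8 : ∀ᶠ x : ℝ in atTop, (ρ - 1) / 2 < ((PI x (ρ * x)).card : ℝ) * Real.log x / x :=
    h5.eventually (lt_mem_nhds (by linarith))
  filter_upwards [h8, eventually_gt_atTop (1:ℝ)] with x hx8 hx
  have hx0 : 0 < x := by linarith
  have hl : 0 < Real.log x := Real.log_pos hx
  have h9 : ∑ p ∈ PI x (ρ * x), 1 / (ρ * x) ≤ ∑ p ∈ PI x (ρ * x), 1 / (p:ℝ) := by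
    refine Finset.sum_le_sum fun p hp => ?_
    rw [mem_PI hx0.le (by positivity)] at hp
    exact one_div_le_one_div_of_le (hx0.trans hp.2.1) hp.2.2
  refine le_trans ?_ h9
  rw [Finset.sum_const, nsmul_eq_mul]
  rw [lt_div_iff₀ hx0] at hx8
  rw [div_le_iff₀ hl, div_le_iff₀ (by positivity)]
  have : ((PI x (ρ * x)).card : ℝ) * (1 / (ρ * x)) * Real.log x * (2 * ρ)
      = 2 * (((PI x (ρ * x)).card : ℝ) * Real.log x) / x := by
    field_simp
  rw [this, le_div_iff₀ hx0]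
  linarith

/-- blocks of primes at two scales -/
theorem blocks (l ρ : ℝ) (hl : 0 < l) (hρ : 1 < ρ) (B : ℝ) :
    ∃ (J : Finset ℕ) (c : ℕ → ℝ), (∀ j ∈ J, 0 ≤ c j ∧
      c j ≤ ∑ p ∈ PI (ρ^j) (ρ^(j+1)), 1 / (p:ℝ) ∧
      c j ≤ ∑ p ∈ PI (l * ρ^j) (l * ρ^(j+1)), 1 / (p:ℝ)) ∧ B ≤ ∑ j ∈ J, c j := by
  obtain ⟨c, hc, hev⟩ := block_lower ρ hρ
  have hρ0 : 0 < ρ := by linarith
  have hlr : 0 < Real.log ρ := Real.log_pos hρ
  have t1 : Tendsto (fun j : ℕ => ρ^j) atTop atTop := tendsto_pow_atTop_atTop_of_one_lt hρ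
  have t2 : Tendsto (fun j : ℕ => l * ρ^j) atTop atTop := t1.const_mul_atTop hl
  have e1 := t1.eventually hev
  have e2 := t2.eventually hev
  have e3 : ∀ᶠ j : ℕ in atTop, |Real.log l| < (j:ℝ) * Real.log ρ := by
    have : Tendsto (fun j : ℕ => (j:ℝ) * Real.log ρ) atTop atTop :=
      tendsto_natCast_atTop_atTop.atTop_mul_const hlr
    exact this.eventually (eventually_gt_atTop _)
  have e4 : ∀ᶠ j : ℕ in atTop, 0 < j := eventually_gt_atTop 0
  obtain ⟨j0, hj0⟩ := (e1.and (e2.and (e3.and e4))).exists_forall_of_atTop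
  set d : ℝ := c / (2 * Real.log ρ) with hd
  have hdpos : 0 < d := by positivity
  have hdiv : Tendsto (fun n : ℕ => ∑ i ∈ Finset.range n, 1 / (i:ℝ)) atTop atTop :=
    (not_summable_iff_tendsto_nat_atTop_of_nonneg (fun n => by positivity)).1
      Real.not_summable_one_div_natCast
  obtain ⟨n, hn⟩ := (hdiv.eventually (eventually_ge_atTop
    (B / d + ∑ i ∈ Finset.range j0, 1 / (i:ℝ)))).and (eventually_ge_atTop j0) |>.exists
  refine ⟨Finset.Ico j0 n, fun j => d * (1 / (j:ℝ)), ?_, ?_⟩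
  · intro j hj
    rw [Finset.mem_Ico] at hj
    obtain ⟨a1, a2, a3, a4⟩ := hj0 j hj.1
    have hjp : (0:ℝ) < j := by exact_mod_cast a4
    have hlogj : Real.log (ρ^j) = (j:ℝ) * Real.log ρ := Real.log_pow ρ j
    have hlogj2 : Real.log (l * ρ^j) = Real.log l + (j:ℝ) * Real.log ρ := by
      rw [Real.log_mul hl.ne' (by positivity), hlogj]
    have b1 : ρ * ρ^j = ρ^(j+1) := by ring
    have b2 : ρ * (l * ρ^j) = l * ρ^(j+1) := by ring
    rw [b1] at a1
    rw [b2] at a2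
    rw [hlogj] at a1
    rw [hlogj2] at a2
    have a5 := abs_lt.1 a3
    refine ⟨by positivity, ?_, ?_⟩ <;> beta_reduce
    · refine le_trans ?_ a1
      rw [hd, div_mul_div_comm, mul_one]
      apply div_le_div_of_nonneg_left hc.le (by positivity)
      nlinarith
    · refine le_trans ?_ a2
      rw [hd, div_mul_div_comm, mul_one]
      apply div_le_div_of_nonneg_left hc.le (by linarith)
      nlinarith
  · rw [← Finset.mul_sum]
    have h1 : ∑ i ∈ Finset.range n, 1 / (i:ℝ)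
        = ∑ i ∈ Finset.range j0, 1 / (i:ℝ) + ∑ i ∈ Finset.Ico j0 n, 1 / (i:ℝ) :=
      (Finset.sum_range_add_sum_Ico _ hn.2).symm
    have h2 : B / d ≤ ∑ i ∈ Finset.Ico j0 n, 1 / (i:ℝ) := by linarith [hn.1]
    rw [div_le_iff₀ hdpos] at h2
    linarith

lemma PI_disjoint (l ρ : ℝ) (hl : 0 < l) (hρ : 1 < ρ) (J : Finset ℕ) :
    (J : Set ℕ).PairwiseDisjoint (fun j => PI (l * ρ^j) (l * ρ^(j+1))) := by
  have hρ0 : 0 < ρ := by linarith
  have key : ∀ i j : ℕ, i < j → Disjoint (PI (l * ρ^i) (l * ρ^(i+1))) (PI (l * ρ^j) (l * ρ^(j+1))) := by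
    intro i j hij
    rw [Finset.disjoint_left]
    intro p hp hq
    rw [mem_PI (by positivity) (by positivity)] at hp hq
    have h1 : ρ^(i+1) ≤ ρ^j := pow_le_pow_right₀ hρ.le hij
    have h2 : l * ρ^(i+1) ≤ l * ρ^j := by gcongr
    linarith [hp.2.2, hq.2.1]
  intro i _ j _ hij
  rcases lt_or_gt_of_ne hij with h | h
  · exact key i j h
  · exact (key j i h).symm

end Pool.Agent.TH805.RZ
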