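import Mathlib
import Pool.Agent.TH805.RZ.Vec
import Pool.Agent.TH805.RZ.Blocks

set_option autoImplicit false
open Finset Filter Topology

namespace Pool.Agent.TH805.RZ

variable {G : Type*} [Group G] {H : Type*} [NormedAddCommGroup H] [InnerProductSpace ℝ H]
variable {e : G → H} (he : Orthonormal ℝ e) {f : ℕ → G} (hf : IsMul f)
include he

/-- Lipschitz bound in a symmetric multiplicative form. -/
lemma V_lip_ratio (h : G) {x y ρ : ℝ} (hρ : 1 ≤ ρ) (hx : 0 < x) (hy : 0 < y)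
    (h1 : x ≤ ρ * y) (h2 : y ≤ ρ * x) :
    ‖V e f h x - V e f h y‖ ≤ 2 * (ρ - 1) + 1 / x + 1 / y := by
  have hx' : 0 < 1 / x := by positivity
  have hy' : 0 < 1 / y := by positivity
  rcases le_total y x with hyx | hxy
  · have h3 := V_lip he f h hy hyx
    have h4 : (2 * (x - y) + 1) / x ≤ 2 * (ρ - 1) + 1 / x := by
      rw [div_le_iff₀ hx]
      have : (2 * (ρ - 1) + 1 / x) * x = 2 * (ρ - 1) * x + 1 := by field_simp
      rw [this]
      nlinarith [mul_nonneg (sub_nonneg.2 hρ) (sub_nonneg.2 hyx)]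
    linarith
  · have h3 := V_lip he f h hx hxy
    rw [norm_sub_rev] at h3
    have h4 : (2 * (y - x) + 1) / y ≤ 2 * (ρ - 1) + 1 / y := by
      rw [div_le_iff₀ hy]
      have : (2 * (ρ - 1) + 1 / y) * y = 2 * (ρ - 1) * y + 1 := by field_simp
      rw [this]
      nlinarith [mul_nonneg (sub_nonneg.2 hρ) (sub_nonneg.2 hxy)]
    linarith

include hf

/-- For all large `N` there is a good pair. -/
lemma good_pair (l ρ τ : ℝ) (hl : 0 < l) (hρ : 1 < ρ) (hτ : 0 < τ) :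
    ∃ T : Finset (ℕ × ℕ), (∀ t ∈ T, 0 < t.1 ∧ 0 < t.2 ∧ l * t.1 ≤ ρ * t.2 ∧ (t.2:ℝ) ≤ ρ * (l * t.1)) ∧
      ∀ᶠ N : ℕ in atTop, ∃ t ∈ (T : Set (ℕ × ℕ)),
        ‖V e f (f t.1) ((N:ℝ) / t.1) - V e f 1 N‖^2 ≤ τ ∧
        ‖V e f (f t.2) (l * (N:ℝ) / t.2) - V e f 1 (l * N)‖^2 ≤ τ := by
  classical
  have hρ0 : 0 < ρ := by linarith
  obtain ⟨J, c, hJ, hB⟩ := blocks l ρ hl hρ (2 * CC / τ + 1)
  set P : ℕ → Finset ℕ := fun j => PI (ρ^j) (ρ^(j+1)) with hP
  set Q : ℕ → Finset ℕ := fun j => PI (l * ρ^j) (l * ρ^(j+1)) with hQ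
  refine ⟨J.biUnion fun j => P j ×ˢ Q j, ?_, ?_⟩
  · intro t ht
    rw [Finset.mem_biUnion] at ht
    obtain ⟨j, hj, ht⟩ := ht
    rw [Finset.mem_product] at ht
    obtain ⟨hp, hq⟩ := ht
    rw [hP] at hp
    rw [hQ] at hq
    simp only at hp hq
    rw [mem_PI (by positivity) (by positivity)] at hp hq
    refine ⟨hp.1.pos, hq.1.pos, ?_, ?_⟩
    · calc l * (t.1:ℝ) ≤ l * ρ^(j+1) := by gcongr; exact hp.2.2
        _ = ρ * (l * ρ^j) := by ring
        _ ≤ ρ * t.2 := by gcongr; exact hq.2.1.le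
    · calc (t.2:ℝ) ≤ l * ρ^(j+1) := hq.2.2
        _ = ρ * (l * ρ^j) := by ring
        _ ≤ ρ * (l * t.1) := by gcongr; exact hp.2.1.le
  · -- the set of all primes involved
    set PP : Finset ℕ := J.biUnion P with hPP
    set QQ : Finset ℕ := J.biUnion Q with hQQ
    have hPprime : ∀ p ∈ PP, p.Prime := by
      intro p hp
      rw [hPP, Finset.mem_biUnion] at hp
      obtain ⟨j, _, hp⟩ := hp
      rw [hP] at hp
      simp only at hp
      rw [mem_PI (by positivity) (by positivity)] at hp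
      exact hp.1
    have hQprime : ∀ p ∈ QQ, p.Prime := by
      intro p hp
      rw [hQQ, Finset.mem_biUnion] at hp
      obtain ⟨j, _, hp⟩ := hp
      rw [hQ] at hp
      simp only at hp
      rw [mem_PI (by positivity) (by positivity)] at hp
      exact hp.1
    have ev1 : ∀ᶠ N : ℕ in atTop, ∀ p ∈ PP, (p:ℝ)^2 ≤ N := by
      have : ∀ p ∈ PP, ∀ᶠ N : ℕ in atTop, (p:ℝ)^2 ≤ N := fun p _ =>
        tendsto_natCast_atTop_atTop.eventually (eventually_ge_atTop _)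
      exact (Filter.eventually_all_finset PP).2 this
    have tl : Tendsto (fun N : ℕ => l * (N:ℝ)) atTop atTop :=
      tendsto_natCast_atTop_atTop.const_mul_atTop hl
    have ev2 : ∀ᶠ N : ℕ in atTop, ∀ p ∈ QQ, (p:ℝ)^2 ≤ l * N := by
      have : ∀ p ∈ QQ, ∀ᶠ N : ℕ in atTop, (p:ℝ)^2 ≤ l * N := fun p _ =>
        tl.eventually (eventually_ge_atTop _)
      exact (Filter.eventually_all_finset QQ).2 this
    have ev3 : ∀ᶠ N : ℕ in atTop, (1:ℝ) ≤ N :=
      tendsto_natCast_atTop_atTop.eventually (eventually_ge_atTop _)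
    have ev4 : ∀ᶠ N : ℕ in atTop, (1:ℝ) ≤ l * N := tl.eventually (eventually_ge_atTop _)
    filter_upwards [ev1, ev2, ev3, ev4] with N h1 h2 h3 h4
    have m1 := main_V he hf (N:ℝ) h3 PP (fun p hp => ⟨hPprime p hp, h1 p hp⟩)
    have m2 := main_V he hf (l * N) h4 QQ (fun p hp => ⟨hQprime p hp, h2 p hp⟩)
    rw [hPP, Finset.sum_biUnion] at m1
    swap
    · have := PI_disjoint 1 ρ one_pos hρ J
      simpa [hP] using this
    rw [hQQ, Finset.sum_biUnion (PI_disjoint l ρ hl hρ J)] at m2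
    by_contra hcon
    push Not at hcon
    have key : ∀ j ∈ J, τ * c j ≤
        ∑ p ∈ P j, (1/(p:ℝ)) * ‖V e f (f p) ((N:ℝ) / p) - V e f 1 N‖^2
        + ∑ q ∈ Q j, (1/(q:ℝ)) * ‖V e f (f q) (l * (N:ℝ) / q) - V e f 1 (l * N)‖^2 := by
      intro j hj
      obtain ⟨c0, c1, c2⟩ := hJ j hj
      have n1 : 0 ≤ ∑ p ∈ P j, (1/(p:ℝ)) * ‖V e f (f p) ((N:ℝ) / p) - V e f 1 N‖^2 :=
        Finset.sum_nonneg fun p _ => by positivity
      have n2 : 0 ≤ ∑ q ∈ Q j, (1/(q:ℝ)) * ‖V e f (f q) (l * (N:ℝ) / q) - V e f 1 (l * N)‖^2 :=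
        Finset.sum_nonneg fun p _ => by positivity
      by_cases hall : ∀ p ∈ P j, τ ≤ ‖V e f (f p) ((N:ℝ) / p) - V e f 1 N‖^2
      · have : τ * c j ≤ ∑ p ∈ P j, (1/(p:ℝ)) * ‖V e f (f p) ((N:ℝ) / p) - V e f 1 N‖^2 := by
          calc τ * c j ≤ τ * ∑ p ∈ P j, 1 / (p:ℝ) := by gcongr
            _ = ∑ p ∈ P j, (1/(p:ℝ)) * τ := by rw [mul_comm, Finset.sum_mul]
            _ ≤ _ := Finset.sum_le_sum fun p hp => by
                have := hall p hp
                gcongr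
        linarith
      · push Not at hall
        obtain ⟨p, hp, hlt⟩ := hall
        have hall2 : ∀ q ∈ Q j, τ ≤ ‖V e f (f q) (l * (N:ℝ) / q) - V e f 1 (l * N)‖^2 := by
          intro q hq
          refine (hcon (p, q) ?_ hlt.le).le
          rw [Finset.mem_coe, Finset.mem_biUnion]
          exact ⟨j, hj, Finset.mem_product.2 ⟨hp, hq⟩⟩
        have : τ * c j ≤ ∑ q ∈ Q j, (1/(q:ℝ)) * ‖V e f (f q) (l * (N:ℝ) / q) - V e f 1 (l * N)‖^2 := by
          calc τ * c j ≤ τ * ∑ p ∈ Q j, 1 / (p:ℝ) := by gcongr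
            _ = ∑ p ∈ Q j, (1/(p:ℝ)) * τ := by rw [mul_comm, Finset.sum_mul]
            _ ≤ _ := Finset.sum_le_sum fun p hp => by
                have := hall2 p hp
                gcongr
        linarith
    have h5 := Finset.sum_le_sum key
    rw [Finset.sum_add_distrib, ← Finset.mul_sum] at h5
    have h6 : τ * (2 * CC / τ + 1) ≤ τ * ∑ j ∈ J, c j := by gcongr
    have h7 : τ * (2 * CC / τ + 1) = 2 * CC + τ := by field_simp
    linarith

/-- Claim 1: along an ultrafilter, the vector at scale `l N` is approximated by a translate of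
the vector at scale `N`. -/
theorem claim1 (U : Ultrafilter ℕ) (hU : (U : Filter ℕ) ≤ atTop) (l : ℝ) (hl : 0 < l)
    (ε : ℝ) (hε : 0 < ε) :
    ∃ h : G, ∀ᶠ N : ℕ in (U : Filter ℕ), ‖V e f 1 (l * N) - V e f h N‖ ≤ ε := by
  obtain ⟨T, hT, hev⟩ := good_pair he hf l (1 + ε/16) ((ε/4)^2) hl (by linarith) (by positivity)
  have hev' := hU hev
  obtain ⟨t, ht, hev2⟩ := (Ultrafilter.eventually_exists_mem_iff (Finset.finite_toSet T)).1 hev'
  obtain ⟨p0, q0, r1, r2⟩ := hT t ht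
  have hp0 : (0:ℝ) < t.1 := by exact_mod_cast p0
  have hq0 : (0:ℝ) < t.2 := by exact_mod_cast q0
  refine ⟨f t.2 * (f t.1)⁻¹, ?_⟩
  have tn : Tendsto (fun N : ℕ => (N:ℝ)) atTop atTop := tendsto_natCast_atTop_atTop
  have ev3 : ∀ᶠ N : ℕ in atTop, (0:ℝ) < N := tn.eventually (eventually_gt_atTop _)
  have ev4 : ∀ᶠ N : ℕ in atTop, 16 * t.1 / ε ≤ (N:ℝ) := tn.eventually (eventually_ge_atTop _)
  have ev5 : ∀ᶠ N : ℕ in atTop, 16 * t.2 / (ε * l) ≤ (N:ℝ) := tn.eventually (eventually_ge_atTop _)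
  filter_upwards [hev2, hU ev3, hU ev4, hU ev5] with N h1 h3 h4 h5
  obtain ⟨ha, hb⟩ := h1
  have ha' := abs_le_of_sq_le_sq ha (by positivity)
  have hb' := abs_le_of_sq_le_sq hb (by positivity)
  rw [abs_of_nonneg (norm_nonneg _)] at ha' hb'
  have hx : 0 < (N:ℝ) / t.1 := by positivity
  have hy : 0 < l * (N:ℝ) / t.2 := by positivity
  have hlip := V_lip_ratio (f := f) he (f t.2) (ρ := 1 + ε/16) (by linarith) hy hx (by
      rw [div_le_iff₀ hq0]
      calc l * (N:ℝ) = (l * t.1) * (N / t.1) := by field_simp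
        _ ≤ ((1 + ε/16) * t.2) * (N / t.1) := by gcongr
        _ = _ := by ring) (by
      rw [div_le_iff₀ hp0]
      calc (N:ℝ) = t.2 * (N / t.2) := by field_simp
        _ ≤ ((1 + ε/16) * (l * t.1)) * (N / t.2) := by gcongr
        _ = _ := by ring)
  have h6 : 1 / ((N:ℝ) / t.1) ≤ ε / 16 := by
    rw [one_div_div, div_le_iff₀ h3]
    rw [div_le_iff₀ hε] at h4
    linarith
  have h7 : 1 / (l * (N:ℝ) / t.2) ≤ ε / 16 := by
    rw [one_div_div, div_le_iff₀ (by positivity)]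
    rw [div_le_iff₀ (by positivity)] at h5
    linarith
  have h8 : ‖V e f (f t.2) ((N:ℝ) / t.1) - V e f (f t.2 * (f t.1)⁻¹) N‖
      = ‖V e f (f t.1) ((N:ℝ) / t.1) - V e f 1 N‖ := by
    rw [← norm_V_sub_mul he f (f t.2 * (f t.1)⁻¹) (f t.1) 1]
    simp
  have h9 : V e f 1 (l * N) - V e f (f t.2 * (f t.1)⁻¹) N
      = -(V e f (f t.2) (l * (N:ℝ) / t.2) - V e f 1 (l * N))
        + (V e f (f t.2) (l * (N:ℝ) / t.2) - V e f (f t.2) ((N:ℝ) / t.1))
        + (V e f (f t.2) ((N:ℝ) / t.1) - V e f (f t.2 * (f t.1)⁻¹) N) := by abel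
  rw [h9]
  refine (norm_add₃_le).trans ?_
  rw [norm_neg, h8]
  linarith

end Pool.Agent.TH805.RZ
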