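import Mathlib
import Pool.Agent.TH805.RZ.Claim1

set_option autoImplicit false
open Finset Filter Topology

namespace Pool.Agent.TH805.RZ

variable {G : Type*} [Group G] {H : Type*} [NormedAddCommGroup H] [InnerProductSpace ℝ H]
variable {e : G → H} (he : Orthonormal ℝ e) {f : ℕ → G}

/-- The subgroup of `h` for which the translate by `h` is asymptotically equal to the vector. -/
def KK (he : Orthonormal ℝ e) (f : ℕ → G) (U : Filter ℕ) : Subgroup G where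
  carrier := {h | Tendsto (fun N : ℕ => ‖V e f h N - V e f 1 N‖) U (𝓝 0)}
  one_mem' := by
    show Tendsto (fun N : ℕ => ‖V e f 1 N - V e f 1 N‖) U (𝓝 0)
    simp only [sub_self, norm_zero]
    exact tendsto_const_nhds
  mul_mem' := by
    intro a b ha hb
    rw [Set.mem_ofPred_eq] at *
    have h1 : Tendsto (fun N : ℕ => ‖V e f b N - V e f 1 N‖ + ‖V e f a N - V e f 1 N‖) U (𝓝 0) := by
      simpa using hb.add ha
    refine squeeze_zero (fun N => norm_nonneg _) (fun N => ?_) h1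
    have h2 : ‖V e f (a * b) N - V e f a N‖ = ‖V e f b N - V e f 1 N‖ := by
      have := norm_V_sub_mul he f a b 1 N N
      rwa [mul_one] at this
    rw [← h2]
    calc ‖V e f (a * b) N - V e f 1 N‖
        = ‖(V e f (a * b) N - V e f a N) + (V e f a N - V e f 1 N)‖ := by congr 1; abel
      _ ≤ _ := norm_add_le _ _
  inv_mem' := by
    intro a ha
    rw [Set.mem_ofPred_eq] at *
    refine ha.congr fun N => ?_
    have := norm_V_sub_mul he f a⁻¹ a 1 N N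
    rw [mul_one, inv_mul_cancel] at this
    rw [← this, norm_sub_rev]

lemma mem_KK {U : Filter ℕ} {h : G} :
    h ∈ KK he f U ↔ Tendsto (fun N : ℕ => ‖V e f h N - V e f 1 N‖) U (𝓝 0) := Iff.rfl

lemma mem_KK' {U : Filter ℕ} {h k : G} :
    k⁻¹ * h ∈ KK he f U ↔ Tendsto (fun N : ℕ => ‖V e f h N - V e f k N‖) U (𝓝 0) := by
  rw [mem_KK]
  have : ∀ N : ℕ, ‖V e f (k⁻¹ * h) N - V e f 1 N‖ = ‖V e f h N - V e f k N‖ := by
    intro N
    rw [← norm_V_sub_mul he f k (k⁻¹ * h) 1, mul_inv_cancel_left, mul_one]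
  simp_rw [this]

section limits
variable (U : Ultrafilter ℕ) (hU : (U : Filter ℕ) ≤ atTop)
include he hU

lemma ev_pos : ∀ᶠ N : ℕ in (U : Filter ℕ), (0:ℝ) < N := by
  have h : ∀ᶠ N : ℕ in atTop, (0:ℝ) < N :=
    tendsto_natCast_atTop_atTop.eventually (eventually_gt_atTop _)
  exact hU h

lemma exists_phi : ∃ φ : G → ℝ, ∀ h,
    Tendsto (fun N : ℕ => inner ℝ (V e f h N) (V e f 1 N)) (U : Filter ℕ) (𝓝 (φ h)) := by
  have key : ∀ h, ∃ a : ℝ,
      Tendsto (fun N : ℕ => inner ℝ (V e f h N) (V e f 1 N)) (U : Filter ℕ) (𝓝 a) := by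
    intro h
    have hc : IsCompact (Set.Icc (-1:ℝ) 1) := isCompact_Icc
    obtain ⟨a, _, ha⟩ := hc.ultrafilter_le_nhds
      (U.map (fun N : ℕ => inner ℝ (V e f h N) (V e f 1 N))) (by
        rw [le_principal_iff]
        show ∀ᶠ N : ℕ in (U : Filter ℕ), inner ℝ (V e f h N) (V e f 1 N) ∈ Set.Icc (-1:ℝ) 1
        filter_upwards [ev_pos he U hU] with N hN
        have h1 := abs_real_inner_le_norm (V e f h N) (V e f 1 N)
        have h2 := norm_V_le he f h hN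
        have h3 := norm_V_le he f 1 hN
        have h4 : |inner ℝ (V e f h N) (V e f 1 N)| ≤ 1 := by
          refine h1.trans ?_
          nlinarith [norm_nonneg (V e f h N), norm_nonneg (V e f 1 N)]
        exact abs_le.1 h4)
    exact ⟨a, ha⟩
  choose φ hφ using key
  exact ⟨φ, hφ⟩

lemma phi_nonneg {φ : G → ℝ} (hφ : ∀ h,
    Tendsto (fun N : ℕ => inner ℝ (V e f h N) (V e f 1 N)) (U : Filter ℕ) (𝓝 (φ h))) (h : G) :
    0 ≤ φ h := by
  refine ge_of_tendsto (hφ h) ?_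
  filter_upwards [ev_pos he U hU] with N hN
  exact inner_V_nonneg he f h 1 hN hN

lemma phi_sum_le {φ : G → ℝ} (hφ : ∀ h,
    Tendsto (fun N : ℕ => inner ℝ (V e f h N) (V e f 1 N)) (U : Filter ℕ) (𝓝 (φ h)))
    (F : Finset G) : ∑ h ∈ F, φ h ≤ 1 := by
  have h1 : Tendsto (fun N : ℕ => ∑ h ∈ F, inner ℝ (V e f h N) (V e f 1 N)) (U : Filter ℕ)
      (𝓝 (∑ h ∈ F, φ h)) := tendsto_finsetSum _ fun h _ => hφ h
  refine le_of_tendsto h1 ?_
  filter_upwards [ev_pos he U hU] with N hN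
  exact sum_inner_V_le he f F hN

omit hU in
lemma phi_norm {φ : G → ℝ} (hφ : ∀ h,
    Tendsto (fun N : ℕ => inner ℝ (V e f h N) (V e f 1 N)) (U : Filter ℕ) (𝓝 (φ h))) (h k : G) :
    Tendsto (fun N : ℕ => ‖V e f h N - V e f k N‖^2) (U : Filter ℕ)
      (𝓝 (2 * (φ 1 - φ (k⁻¹ * h)))) := by
  have h1 : ∀ N : ℕ, ‖V e f h N - V e f k N‖^2
      = 2 * (inner ℝ (V e f 1 N) (V e f 1 N) - inner ℝ (V e f (k⁻¹ * h) N) (V e f 1 N)) := by
    intro N
    rw [norm_sub_sq_real, ← real_inner_self_eq_norm_sq, ← real_inner_self_eq_norm_sq (V e f k N)]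
    have a1 : inner ℝ (V e f h N) (V e f h N) = inner ℝ (V e f 1 N) (V e f 1 N) := by
      have := inner_V_mul he f h 1 1 N N
      rwa [mul_one] at this
    have a2 : inner ℝ (V e f k N) (V e f k N) = inner ℝ (V e f 1 N) (V e f 1 N) := by
      have := inner_V_mul he f k 1 1 N N
      rwa [mul_one] at this
    have a3 : inner ℝ (V e f h N) (V e f k N) = inner ℝ (V e f (k⁻¹ * h) N) (V e f 1 N) := by
      have := inner_V_mul he f k (k⁻¹ * h) 1 N N
      rwa [mul_one, mul_inv_cancel_left] at this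
    rw [a1, a2, a3]
    ring
  simp_rw [h1]
  exact ((hφ 1).sub (hφ (k⁻¹ * h))).const_mul 2

omit hU in
lemma phi_eq_iff {φ : G → ℝ} (hφ : ∀ h,
    Tendsto (fun N : ℕ => inner ℝ (V e f h N) (V e f 1 N)) (U : Filter ℕ) (𝓝 (φ h))) (h : G) :
    h ∈ KK he f U ↔ φ h = φ 1 := by
  have h1 := phi_norm he U hφ h 1
  rw [inv_one, one_mul] at h1
  rw [mem_KK]
  constructor
  · intro h2
    have h3 := h2.pow 2
    rw [zero_pow (by norm_num)] at h3
    have h4 := tendsto_nhds_unique h1 h3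
    linarith
  · intro h2
    rw [h2, sub_self, mul_zero] at h1
    have h3 := h1.sqrt
    rw [Real.sqrt_zero] at h3
    refine h3.congr fun N => ?_
    rw [Real.sqrt_sq (norm_nonneg _)]

omit hU in
lemma phi_le {φ : G → ℝ} (hφ : ∀ h,
    Tendsto (fun N : ℕ => inner ℝ (V e f h N) (V e f 1 N)) (U : Filter ℕ) (𝓝 (φ h))) (h : G) :
    φ h ≤ φ 1 := by
  have h1 := phi_norm he U hφ h 1
  rw [inv_one, one_mul] at h1
  have h2 : 0 ≤ 2 * (φ 1 - φ h) := ge_of_tendsto h1 (Eventually.of_forall fun N => sq_nonneg _)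
  linarith

lemma finite_phi {φ : G → ℝ} (hφ : ∀ h,
    Tendsto (fun N : ℕ => inner ℝ (V e f h N) (V e f 1 N)) (U : Filter ℕ) (𝓝 (φ h)))
    (a : ℝ) (ha : 0 < a) : {h : G | a < φ h}.Finite := by
  by_contra hinf
  have hinf' : {h : G | a < φ h}.Infinite := hinf
  obtain ⟨n, hn⟩ := exists_nat_gt (1 / a)
  obtain ⟨F, hF, hcard⟩ := hinf'.exists_subset_card_eq n
  have h1 := phi_sum_le he U hU hφ F
  have h2 : ∑ h ∈ F, a ≤ ∑ h ∈ F, φ h := Finset.sum_le_sum fun h hh => (hF hh).le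
  rw [Finset.sum_const, hcard, nsmul_eq_mul] at h2
  rw [div_lt_iff₀ ha] at hn
  linarith

lemma gap {φ : G → ℝ} (hφ : ∀ h,
    Tendsto (fun N : ℕ => inner ℝ (V e f h N) (V e f 1 N)) (U : Filter ℕ) (𝓝 (φ h)))
    (h1 : 0 < φ 1) : ∃ γ : ℝ, 0 < γ ∧ ∀ h, h ∉ KK he f U → φ h ≤ φ 1 - γ := by
  have hfin : {h : G | φ 1 / 2 < φ h ∧ h ∉ KK he f U}.Finite :=
    (finite_phi he U hU hφ (φ 1 / 2) (by linarith)).subset fun h hh => hh.1
  have hev : ∀ᶠ γ : ℝ in 𝓝[>] 0, ∀ h ∈ {h : G | φ 1 / 2 < φ h ∧ h ∉ KK he f U}, γ < φ 1 - φ h := by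
    rw [Filter.eventually_all_finite hfin]
    intro h hh
    have h2 : 0 < φ 1 - φ h := by
      have h3 := phi_le he U hφ h
      have h4 : φ h ≠ φ 1 := fun h5 => hh.2 ((phi_eq_iff he U hφ h).2 h5)
      have := lt_of_le_of_ne h3 h4
      linarith
    exact (Iio_mem_nhds h2 : Set.Iio _ ∈ 𝓝 (0:ℝ)) |> mem_nhdsWithin_of_mem_nhds
  have hev2 : ∀ᶠ γ : ℝ in 𝓝[>] 0, γ < φ 1 / 2 :=
    mem_nhdsWithin_of_mem_nhds (Iio_mem_nhds (by linarith))
  have hev3 : ∀ᶠ γ : ℝ in 𝓝[>] 0, 0 < γ := eventually_mem_nhdsWithin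
  obtain ⟨γ, g1, g2, g3⟩ := (hev.and (hev2.and hev3)).exists
  refine ⟨γ, g3, fun h hh => ?_⟩
  by_cases h5 : φ 1 / 2 < φ h
  · have := g1 h ⟨h5, hh⟩
    linarith
  · push Not at h5
    linarith

omit hU in
/-- separation -/
lemma sep {φ : G → ℝ} (hφ : ∀ h,
    Tendsto (fun N : ℕ => inner ℝ (V e f h N) (V e f 1 N)) (U : Filter ℕ) (𝓝 (φ h)))
    {γ : ℝ} (hγ : ∀ h, h ∉ KK he f U → φ h ≤ φ 1 - γ) {r : ℝ} (hr : r^2 < 2 * γ) {h k : G}
    (hev : ∀ᶠ N : ℕ in (U : Filter ℕ), ‖V e f h N - V e f k N‖ ≤ r) : k⁻¹ * h ∈ KK he f U := by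
  by_contra hcon
  have h1 := hγ _ hcon
  have h2 := phi_norm he U hφ h k
  have h3 : 2 * (φ 1 - φ (k⁻¹ * h)) ≤ r^2 := by
    refine le_of_tendsto h2 ?_
    filter_upwards [hev] with N hN
    exact pow_le_pow_left₀ (norm_nonneg _) hN 2
  linarith

end limits

section scales
variable (hf : IsMul f) (U : Ultrafilter ℕ) (hU : (U : Filter ℕ) ≤ atTop)
include he hf hU

lemma claim2 {φ : G → ℝ} (hφ : ∀ h,
    Tendsto (fun N : ℕ => inner ℝ (V e f h N) (V e f 1 N)) (U : Filter ℕ) (𝓝 (φ h)))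
    {γ : ℝ} (hγ : ∀ h, h ∉ KK he f U → φ h ≤ φ 1 - γ) {r : ℝ} (hr0 : 0 < r) (hr : (2*r)^2 < 2 * γ)
    (l : ℝ) (hl : 0 < l) :
    ∃ h : G, Tendsto (fun N : ℕ => ‖V e f 1 (l * N) - V e f h N‖) (U : Filter ℕ) (𝓝 0) := by
  obtain ⟨h0, hh0⟩ := claim1 he hf U hU l hl r hr0
  refine ⟨h0, ?_⟩
  rw [Metric.tendsto_nhds]
  intro ε hε
  set δ := min r (ε/3) with hδ
  have hδ0 : 0 < δ := lt_min hr0 (by linarith)
  obtain ⟨h1, hh1⟩ := claim1 he hf U hU l hl δ hδ0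
  have h2 : h0⁻¹ * h1 ∈ KK he f U := by
    refine sep he U hφ hγ hr ?_
    filter_upwards [hh0, hh1] with N a b
    calc ‖V e f h1 N - V e f h0 N‖
        = ‖(V e f 1 (l * N) - V e f h0 N) - (V e f 1 (l * N) - V e f h1 N)‖ := by congr 1; abel
      _ ≤ ‖V e f 1 (l * N) - V e f h0 N‖ + ‖V e f 1 (l * N) - V e f h1 N‖ := norm_sub_le _ _
      _ ≤ r + δ := add_le_add a b
      _ ≤ 2 * r := by have := min_le_left r (ε/3); linarith
  rw [mem_KK'] at h2
  have h3 : ∀ᶠ N : ℕ in (U : Filter ℕ), ‖V e f h1 N - V e f h0 N‖ < ε / 3 :=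
    h2.eventually (gt_mem_nhds (by linarith))
  filter_upwards [hh1, h3] with N a b
  rw [Real.dist_eq, sub_zero, abs_of_nonneg (norm_nonneg _)]
  calc ‖V e f 1 (l * N) - V e f h0 N‖
      = ‖(V e f 1 (l * N) - V e f h1 N) + (V e f h1 N - V e f h0 N)‖ := by congr 1; abel
    _ ≤ _ := norm_add_le _ _
    _ < ε := by have := min_le_right r (ε/3); linarith

lemma claim3_step {φ : G → ℝ} (hφ : ∀ h,
    Tendsto (fun N : ℕ => inner ℝ (V e f h N) (V e f 1 N)) (U : Filter ℕ) (𝓝 (φ h)))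
    {γ : ℝ} (hγ : ∀ h, h ∉ KK he f U → φ h ≤ φ 1 - γ) {r : ℝ} (hr0 : 0 < r) (hr : (2*r)^2 < 2 * γ)
    (l ρ : ℝ) (hl : 0 < l) (hρ0 : 0 < ρ) (hρ1 : ρ ≤ 1) (hρ : 2 * (1 - ρ) ≤ r)
    (hΛ : Tendsto (fun N : ℕ => ‖V e f 1 (l * N) - V e f 1 N‖) (U : Filter ℕ) (𝓝 0)) :
    Tendsto (fun N : ℕ => ‖V e f 1 ((ρ * l) * N) - V e f 1 N‖) (U : Filter ℕ) (𝓝 0) := by
  obtain ⟨h, hh⟩ := claim2 he hf U hU hφ hγ hr0 hr (ρ * l) (by positivity)
  have tn : Tendsto (fun N : ℕ => (N:ℝ)) atTop atTop := tendsto_natCast_atTop_atTop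
  have hK : (1:G)⁻¹ * h ∈ KK he f U := by
    refine sep he U hφ hγ hr ?_
    have e1 : ∀ᶠ N : ℕ in (U : Filter ℕ), ‖V e f 1 ((ρ * l) * N) - V e f h N‖ < r / 4 :=
      hh.eventually (gt_mem_nhds (by linarith))
    have e2 : ∀ᶠ N : ℕ in (U : Filter ℕ), ‖V e f 1 (l * N) - V e f 1 N‖ < r / 4 :=
      hΛ.eventually (gt_mem_nhds (by linarith))
    have e3 : ∀ᶠ N : ℕ in atTop, 4 / (r * l) ≤ (N:ℝ) := tn.eventually (eventually_ge_atTop _)
    have e4 : ∀ᶠ N : ℕ in atTop, 0 < (N:ℝ) := tn.eventually (eventually_gt_atTop _)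
    filter_upwards [e1, e2, hU e3, hU e4] with N a b c d
    have hx : 0 < l * (N:ℝ) := by positivity
    have hy : 0 < (ρ * l) * (N:ℝ) := by positivity
    have hyx : (ρ * l) * (N:ℝ) ≤ l * N := by
      rw [mul_assoc]
      exact mul_le_of_le_one_left hx.le hρ1
    have hlip := V_lip he f 1 hy hyx
    have h5 : (2 * (l * (N:ℝ) - (ρ * l) * N) + 1) / (l * N) = 2 * (1 - ρ) + 1 / (l * N) := by
      field_simp
    have h6 : 1 / (l * (N:ℝ)) ≤ r / 4 := by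
      rw [div_le_iff₀ hx]
      rw [div_le_iff₀ (by positivity)] at c
      linarith
    rw [h5] at hlip
    calc ‖V e f h N - V e f 1 N‖
        = ‖(V e f 1 (l * N) - V e f 1 N) - (V e f 1 (l * N) - V e f 1 ((ρ * l) * N))
            - (V e f 1 ((ρ * l) * N) - V e f h N)‖ := by congr 1; abel
      _ ≤ ‖(V e f 1 (l * N) - V e f 1 N) - (V e f 1 (l * N) - V e f 1 ((ρ * l) * N))‖
          + ‖V e f 1 ((ρ * l) * N) - V e f h N‖ := norm_sub_le _ _
      _ ≤ ‖V e f 1 (l * N) - V e f 1 N‖ + ‖V e f 1 (l * N) - V e f 1 ((ρ * l) * N)‖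
          + ‖V e f 1 ((ρ * l) * N) - V e f h N‖ := by gcongr; exact norm_sub_le _ _
      _ ≤ 2 * r := by linarith
  rw [mem_KK'] at hK
  have h7 := hh.add hK
  rw [add_zero] at h7
  refine squeeze_zero (fun N => norm_nonneg _) (fun N => ?_) h7
  calc ‖V e f 1 ((ρ * l) * N) - V e f 1 N‖
      = ‖(V e f 1 ((ρ * l) * N) - V e f h N) + (V e f h N - V e f 1 N)‖ := by congr 1; abel
    _ ≤ _ := norm_add_le _ _

lemma claim3 {φ : G → ℝ} (hφ : ∀ h,
    Tendsto (fun N : ℕ => inner ℝ (V e f h N) (V e f 1 N)) (U : Filter ℕ) (𝓝 (φ h)))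
    {γ : ℝ} (hγ : ∀ h, h ∉ KK he f U → φ h ≤ φ 1 - γ) {r : ℝ} (hr0 : 0 < r) (hr1 : r ≤ 1)
    (hr : (2*r)^2 < 2 * γ) (l : ℝ) (hl : 0 < l) (hl1 : l ≤ 1) :
    Tendsto (fun N : ℕ => ‖V e f 1 (l * N) - V e f 1 N‖) (U : Filter ℕ) (𝓝 0) := by
  set ρ : ℝ := 1 - r / 2 with hρdef
  have hρ0 : 0 < ρ := by rw [hρdef]; linarith
  have hρ1 : ρ < 1 := by rw [hρdef]; linarith
  have key : ∀ k : ℕ, ∀ l : ℝ, ρ^k ≤ l → l ≤ 1 →
      Tendsto (fun N : ℕ => ‖V e f 1 (l * N) - V e f 1 N‖) (U : Filter ℕ) (𝓝 0) := by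
    intro k
    induction k with
    | zero =>
      intro l h1 h2
      have : l = 1 := le_antisymm h2 (by simpa using h1)
      subst this
      simp
    | succ k ih =>
      intro l h1 h2
      have hl0 : 0 < l := lt_of_lt_of_le (by positivity) h1
      rcases le_or_gt l ρ with hlρ | hlρ
      · have h3 : ρ^k ≤ l / ρ := by
          rw [le_div_iff₀ hρ0]
          rw [pow_succ] at h1
          exact h1
        have h4 : l / ρ ≤ 1 := by rw [div_le_one hρ0]; exact hlρ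
        have h5 := claim3_step he hf U hU hφ hγ hr0 hr (l / ρ) ρ (by positivity) hρ0 hρ1.le
          (by rw [hρdef]; linarith) (ih _ h3 h4)
        have h6 : ρ * (l / ρ) = l := by field_simp
        rwa [h6] at h5
      · have h5 := claim3_step he hf U hU hφ hγ hr0 hr 1 l one_pos hl0 h2
          (by rw [hρdef] at hlρ; linarith) (ih 1 (pow_le_one₀ hρ0.le hρ1.le) le_rfl)
        rwa [mul_one] at h5
  obtain ⟨k, hk⟩ := exists_pow_lt_of_lt_one hl hρ1
  exact key k l hk.le hl1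

/-- Theorem A: the set of primes with `f p ∉ K` has a finite sum of reciprocals. -/
theorem thmA (hne : ¬ Tendsto (fun N : ℕ => ‖V e f 1 N‖) (U : Filter ℕ) (𝓝 0)) :
    (KK he f U : Set G).Finite ∧ ∃ C : ℝ, ∀ P : Finset ℕ,
      (∀ p ∈ P, p.Prime ∧ f p ∉ KK he f U) → ∑ p ∈ P, 1 / (p:ℝ) ≤ C := by
  obtain ⟨φ, hφ⟩ := exists_phi (f := f) he U hU
  have hφ1 : 0 < φ 1 := by
    refine lt_of_le_of_ne (phi_nonneg he U hU hφ 1) fun h0 => hne ?_
    have h1 := hφ 1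
    rw [← h0] at h1
    have h2 := h1.sqrt
    rw [Real.sqrt_zero] at h2
    refine h2.congr fun N => ?_
    rw [real_inner_self_eq_norm_sq, Real.sqrt_sq (norm_nonneg _)]
  obtain ⟨γ, hγ0, hγ⟩ := gap he U hU hφ hφ1
  constructor
  · refine (finite_phi he U hU hφ (φ 1 / 2) (by linarith)).subset fun h hh => ?_
    have := (phi_eq_iff he U hφ h).1 hh
    rw [Set.mem_ofPred_eq, this]
    linarith
  · -- choose r
    obtain ⟨r, hr0, hr1, hr⟩ : ∃ r : ℝ, 0 < r ∧ r ≤ 1 ∧ (2*r)^2 < 2 * γ := by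
      refine ⟨min 1 (γ/4), lt_min one_pos (by linarith), min_le_left _ _, ?_⟩
      set r := min 1 (γ/4)
      have h1 : r ≤ 1 := min_le_left _ _
      have h2 : r ≤ γ/4 := min_le_right _ _
      have h3 : 0 < r := lt_min one_pos (by linarith)
      nlinarith
    refine ⟨CC / (2 * γ), fun P hP => ?_⟩
    rw [le_div_iff₀ (by positivity)]
    have tn : Tendsto (fun N : ℕ => (N:ℝ)) atTop atTop := tendsto_natCast_atTop_atTop
    have e1 : ∀ᶠ N : ℕ in atTop, ∀ p ∈ P, (p:ℝ)^2 ≤ N := by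
      have : ∀ p ∈ P, ∀ᶠ N : ℕ in atTop, (p:ℝ)^2 ≤ N := fun p _ =>
        tn.eventually (eventually_ge_atTop _)
      exact (Filter.eventually_all_finset P).2 this
    have e2 : ∀ᶠ N : ℕ in atTop, (1:ℝ) ≤ N := tn.eventually (eventually_ge_atTop _)
    have e3 : ∀ᶠ N : ℕ in (U : Filter ℕ),
        ∑ p ∈ P, (1/(p:ℝ)) * ‖V e f (f p) ((N:ℝ) / p) - V e f 1 N‖^2 ≤ CC := by
      filter_upwards [hU e1, hU e2] with N a b
      exact main_V he hf N b P fun p hp => ⟨(hP p hp).1, a p hp⟩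
    have e4 : ∀ p ∈ P, Tendsto (fun N : ℕ => (1/(p:ℝ)) * ‖V e f (f p) ((N:ℝ) / p) - V e f 1 N‖^2)
        (U : Filter ℕ) (𝓝 ((1/(p:ℝ)) * (2 * (φ 1 - φ (f p))))) := by
      intro p hp
      have hp0 : (0:ℝ) < p := by exact_mod_cast (hP p hp).1.pos
      have hp1 : (1:ℝ) ≤ p := by exact_mod_cast (hP p hp).1.one_le
      refine Tendsto.const_mul _ ?_
      have h1 := phi_norm he U hφ (f p) 1
      rw [inv_one, one_mul] at h1
      have h2 := claim3 he hf U hU hφ hγ hr0 hr1 hr (1/(p:ℝ)) (by positivity)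
        (by rw [div_le_one hp0]; exact hp1)
      have h3 : ∀ N : ℕ, ‖V e f 1 ((1/(p:ℝ)) * N) - V e f 1 N‖
          = ‖V e f (f p) ((N:ℝ)/p) - V e f (f p) N‖ := by
        intro N
        have h4 := norm_V_sub_mul he f (f p) 1 1 ((1/(p:ℝ)) * N) N
        rw [mul_one] at h4
        rw [← h4, one_div_mul_eq_div]
      simp_rw [h3] at h2
      -- the difference of the norms tends to zero
      have h5 : Tendsto (fun N : ℕ => ‖V e f (f p) ((N:ℝ)/p) - V e f 1 N‖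
          - ‖V e f (f p) N - V e f 1 N‖) (U : Filter ℕ) (𝓝 0) := by
        refine squeeze_zero_norm (fun N => ?_) h2
        rw [Real.norm_eq_abs]
        refine (abs_norm_sub_norm_le _ _).trans (le_of_eq ?_)
        congr 1
        abel
      have h6 := h1.sqrt
      have h7 : Tendsto (fun N : ℕ => ‖V e f (f p) N - V e f 1 N‖) (U : Filter ℕ)
          (𝓝 (Real.sqrt (2 * (φ 1 - φ (f p))))) :=
        h6.congr fun N => Real.sqrt_sq (norm_nonneg _)
      have h8 := (h5.add h7).pow 2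
      rw [zero_add, Real.sq_sqrt (by have := phi_le he U hφ (f p); linarith)] at h8
      refine h8.congr fun N => ?_
      congr 1
      ring
    have e5 := tendsto_finsetSum P e4
    have e6 := le_of_tendsto e5 e3
    refine le_trans ?_ e6
    rw [Finset.sum_mul]
    refine Finset.sum_le_sum fun p hp => ?_
    have hp0 : (0:ℝ) < p := by exact_mod_cast (hP p hp).1.pos
    have := hγ (f p) (hP p hp).2
    gcongr
    linarith

end scales

end Pool.Agent.TH805.RZ
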