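import Mathlib
import Pool.Agent.TH805.RZ.Ultra
import Pool.Agent.TH805.RZ.Coset

set_option autoImplicit false
open Finset Filter Topology

namespace Pool.Agent.TH805.RZ

variable {G : Type*} [Group G] {H : Type*} [NormedAddCommGroup H] [InnerProductSpace ℝ H]
variable {e : G → H} (he : Orthonormal ℝ e) {f : ℕ → G} (hf : IsMul f)

/-- the primes with values outside `K` have a convergent sum of reciprocals -/
def Good (f : ℕ → G) (K : Subgroup G) : Prop :=
  ∃ C : ℝ, ∀ P : Finset ℕ, (∀ p ∈ P, p.Prime ∧ f p ∉ K) → ∑ p ∈ P, 1 / (p:ℝ) ≤ C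

lemma good_inf {K L : Subgroup G} (hK : Good f K) (hL : Good f L) : Good f (K ⊓ L) := by
  classical
  obtain ⟨C, hC⟩ := hK
  obtain ⟨D, hD⟩ := hL
  refine ⟨C + D, fun P hP => ?_⟩
  have h1 : P ⊆ P.filter (fun p => f p ∉ K) ∪ P.filter (fun p => f p ∉ L) := by
    intro p hp
    rw [Finset.mem_union, Finset.mem_filter, Finset.mem_filter]
    by_contra hcon
    push Not at hcon
    exact (hP p hp).2 (Subgroup.mem_inf.2 ⟨by_contra fun h => h (hcon.1 hp), by_contra fun h => h (hcon.2 hp)⟩)
  have h2 : ∑ p ∈ P, 1 / (p:ℝ) ≤ ∑ p ∈ P.filter (fun p => f p ∉ K) ∪ P.filter (fun p => f p ∉ L), 1 / (p:ℝ) :=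
    Finset.sum_le_sum_of_subset_of_nonneg h1 fun p _ _ => by positivity
  have h3 : ∑ p ∈ P.filter (fun p => f p ∉ K) ∪ P.filter (fun p => f p ∉ L), 1 / (p:ℝ)
      ≤ ∑ p ∈ P.filter (fun p => f p ∉ K), 1 / (p:ℝ) + ∑ p ∈ P.filter (fun p => f p ∉ L), 1 / (p:ℝ) := by
    rw [← Finset.sum_union_inter]
    have : 0 ≤ ∑ p ∈ P.filter (fun p => f p ∉ K) ∩ P.filter (fun p => f p ∉ L), 1 / (p:ℝ) :=
      Finset.sum_nonneg fun p _ => by positivity
    linarith
  have h4 := hC (P.filter (fun p => f p ∉ K)) fun p hp => by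
    rw [Finset.mem_filter] at hp
    exact ⟨(hP p hp.1).1, hp.2⟩
  have h5 := hD (P.filter (fun p => f p ∉ L)) fun p hp => by
    rw [Finset.mem_filter] at hp
    exact ⟨(hP p hp.1).1, hp.2⟩
  linarith

lemma inner_V_e [DecidableEq G] (he : Orthonormal ℝ e) (h g : G) (N : ℕ) :
    inner ℝ (V e f h N) (e g) = (((Ioc 0 N).filter (fun n => h * f n = g)).card : ℝ) / N := by
  unfold V
  rw [real_inner_smul_left, Nat.floor_natCast, inner_S_e he, Finset.sum_boole]
  ring

include he hf

/-- the statement for `g`, with counting by `Finset.filter` -/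
theorem density_filter [DecidableEq G] (g : G) :
    ∃ d : ℝ, Tendsto (fun N : ℕ => (((Ioc 0 N).filter (fun n => f n = g)).card : ℝ) / N)
      atTop (𝓝 d) := by
  have hV1 : ∀ N : ℕ, (((Ioc 0 N).filter (fun n => f n = g)).card : ℝ) / N
      = inner ℝ (V e f 1 N) (e g) := by
    intro N
    rw [inner_V_e he]
    simp
  simp_rw [hV1]
  by_cases hex : ∃ K : Subgroup G, (K : Set G).Finite ∧ Good f K
  · -- take `K` of minimal cardinality
    have hex2 : ∃ n : ℕ, ∃ K : Subgroup G, (K : Set G).Finite ∧ Good f K ∧ Nat.card K = n := by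
      obtain ⟨K, h1, h2⟩ := hex
      exact ⟨_, K, h1, h2, rfl⟩
    classical
    obtain ⟨K, hKfin, hKgood, hKcard⟩ := Nat.find_spec hex2
    have hmin : ∀ L : Subgroup G, (L : Set G).Finite → Good f L → K ≤ L := by
      intro L hL1 hL2
      have h1 : ((K ⊓ L : Subgroup G) : Set G).Finite := hKfin.subset (by
        intro x hx
        exact (Subgroup.mem_inf.1 hx).1)
      have h2 : Good f (K ⊓ L) := good_inf hKgood hL2
      have h3 : Nat.card K ≤ Nat.card (K ⊓ L : Subgroup G) := by
        rw [hKcard]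
        exact Nat.find_min' hex2 ⟨_, h1, h2, rfl⟩
      have h4 : (K ⊓ L : Subgroup G) = K := by
        haveI : Finite K := hKfin.to_subtype
        exact Subgroup.eq_of_le_of_card_ge inf_le_left h3
      exact inf_eq_left.1 h4
    have hlim : ∀ k ∈ K, Tendsto (fun N : ℕ => ‖V e f k N - V e f 1 N‖) atTop (𝓝 0) := by
      intro k hk
      rw [tendsto_iff_ultrafilter]
      intro U hU
      by_cases hne : Tendsto (fun N : ℕ => ‖V e f 1 N‖) (U : Filter ℕ) (𝓝 0)
      · have h1 : ∀ N : ℕ, ‖V e f k N‖ = ‖V e f 1 N‖ := by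
          intro N
          have h2 := inner_V_mul he f k 1 1 N N
          rw [mul_one, real_inner_self_eq_norm_sq, real_inner_self_eq_norm_sq] at h2
          have h3 := congrArg Real.sqrt h2
          rwa [Real.sqrt_sq (norm_nonneg _), Real.sqrt_sq (norm_nonneg _)] at h3
        have h4 := hne.add hne
        rw [add_zero] at h4
        refine squeeze_zero (fun N => norm_nonneg _) (fun N => ?_) h4
        refine (norm_sub_le _ _).trans ?_
        rw [h1]
      · obtain ⟨hfin, C, hC⟩ := thmA he hf U hU hne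
        exact (hmin (KK he f U) hfin ⟨C, hC⟩) hk
    obtain ⟨d, hd⟩ := coset_density hf K g hKgood
    haveI : Fintype K := hKfin.fintype
    -- the sum over `K`
    have hsum : ∀ N : ℕ, ∑ k : K, inner ℝ (V e f (k:G) N) (e g)
        = (((Ioc 0 N).filter (fun n => f n * g⁻¹ ∈ K)).card : ℝ) / N := by
      intro N
      simp_rw [inner_V_e he]
      rw [← Finset.sum_div]
      congr 1
      simp_rw [← Finset.sum_boole]
      rw [Finset.sum_comm]
      refine Finset.sum_congr rfl fun n _ => ?_
      by_cases hn : f n * g⁻¹ ∈ K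
      · rw [if_pos hn]
        have hmem : g * (f n)⁻¹ ∈ K := by
          have := K.inv_mem hn
          rwa [mul_inv_rev, inv_inv] at this
        rw [Finset.sum_eq_single (⟨g * (f n)⁻¹, hmem⟩ : K)]
        · simp
        · intro k _ hk
          rw [if_neg]
          intro h
          apply hk
          ext
          simp [← h]
        · intro h
          exact absurd (Finset.mem_univ _) h
      · rw [if_neg hn]
        refine Finset.sum_eq_zero fun k _ => ?_
        rw [if_neg]
        intro h
        apply hn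
        have : f n * g⁻¹ = (k:G)⁻¹ := by
          rw [← h]
          group
        rw [this]
        exact K.inv_mem k.2
    have hdiff : Tendsto (fun N : ℕ => ∑ k : K, (inner ℝ (V e f (k:G) N) (e g)
        - inner ℝ (V e f 1 N) (e g))) atTop (𝓝 (∑ _k : K, (0:ℝ))) := by
      refine tendsto_finsetSum _ fun k _ => ?_
      refine squeeze_zero_norm (fun N => ?_) (hlim k k.2)
      rw [← inner_sub_left]
      refine (norm_inner_le_norm _ _).trans ?_
      rw [norm_e he, mul_one]
    have hcard : (0:ℝ) < (Fintype.card K : ℝ) := by exact_mod_cast Fintype.card_pos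
    have hfinal := (hd.sub hdiff).div_const (Fintype.card K : ℝ)
    refine ⟨_, hfinal.congr fun N => ?_⟩
    rw [← hsum N, Finset.sum_sub_distrib]
    simp only [Finset.sum_const, Finset.card_univ, nsmul_eq_mul]
    field_simp
    ring
  · have h0 : Tendsto (fun N : ℕ => ‖V e f 1 N‖) atTop (𝓝 0) := by
      rw [tendsto_iff_ultrafilter]
      intro U hU
      by_contra hne
      obtain ⟨hfin, C, hC⟩ := thmA he hf U hU hne
      exact hex ⟨_, hfin, C, hC⟩
    refine ⟨0, squeeze_zero_norm (fun N => ?_) h0⟩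
    refine (norm_inner_le_norm _ _).trans ?_
    rw [norm_e he, mul_one]

end Pool.Agent.TH805.RZ
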