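import Mathlib
import Pool.Agent.TH805.RZ.Final

set_option autoImplicit false
open Finset Filter Topology

namespace Pool.Agent.TH805.RZ

/-- `Good` in terms of summability over the subtype of primes with value outside `K`. -/
lemma good_iff {G : Type*} [Group G] (f : ℕ → G) (K : Subgroup G) :
    Good f K ↔ Summable (fun p : {p : ℕ // p.Prime ∧ f p ∉ K} => (1:ℝ) / (p : ℕ)) := by
  classical
  constructor
  · rintro ⟨C, hC⟩
    refine summable_of_sum_le (c := C) (fun p => by positivity) fun P => ?_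
    have h1 := hC (P.map (Function.Embedding.subtype _)) (by
      intro p hp
      rw [Finset.mem_map] at hp
      obtain ⟨q, _, rfl⟩ := hp
      exact q.2)
    rw [Finset.sum_map] at h1
    exact h1
  · intro hs
    refine ⟨∑' p : {p : ℕ // p.Prime ∧ f p ∉ K}, (1:ℝ) / (p : ℕ), fun P hP => ?_⟩
    have h1 : ∑ p ∈ P, 1 / (p:ℝ) = ∑ p ∈ P.subtype (fun p => p.Prime ∧ f p ∉ K), (1:ℝ) / ((p:ℕ):ℝ) := by
      rw [Finset.sum_subtype_of_mem (f := fun p : ℕ => 1 / (p:ℝ)) hP]
    rw [h1]
    exact hs.sum_le_tsum _ fun p _ => by positivity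

variable {G : Type*} [Group G]

open Classical in
/-- all the mass is in finitely many right cosets, up to `ε` -/
lemma mass {f : ℕ → G} (hf : IsMul f) (K : Subgroup G) (hKfin : (K : Set G).Finite)
    (hK : Good f K) (ε : ℝ) (hε : 0 < ε) :
    ∃ F : Finset G, ∀ N : ℕ, 0 < N →
      1 - ε ≤ ∑ g ∈ F, (((Ioc 0 N).filter (fun n => f n = g)).card : ℝ) / N := by
  obtain ⟨hs, ht⟩ := uu_tendsto f K hK
  obtain ⟨y, hy1, hy2⟩ := ((ht.eventually (gt_mem_nhds hε)).and (eventually_ge_atTop 1)).exists
  set M := y.factorial ^ y with hM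
  have hMpos : 0 < M := pow_pos (Nat.factorial_pos y) y
  set F : Finset G := (hKfin.toFinset ×ˢ M.divisors).image (fun t => t.1 * f t.2) with hF
  refine ⟨F, fun N hN => ?_⟩
  have hN' : (0:ℝ) < N := by exact_mod_cast hN
  set Bd := (Ioc 0 N).filter (fun n => ∃ p, badp f K y p n) with hBd
  -- not bad implies value in `F`
  have hgood : ∀ n ∈ Ioc 0 N, (¬ ∃ p, badp f K y p n) → f n ∈ F := by
    intro n hn hb
    push Not at hb
    have h1 := (not_bad hf K (f (Nat.gcd n M)) y n (Finset.mem_Ioc.1 hn).1 hb).2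
      (by rw [← hM, mul_inv_cancel]; exact K.one_mem)
    rw [hF, Finset.mem_image]
    refine ⟨(f n * (f (Nat.gcd n M))⁻¹, Nat.gcd n M), ?_, by simp⟩
    rw [Finset.mem_product, Set.Finite.mem_toFinset, Nat.mem_divisors]
    exact ⟨h1, Nat.gcd_dvd_right n M, hMpos.ne'⟩
  have h0 : ∑ g ∈ F, (((Ioc 0 N).filter (fun n => f n = g)).card : ℝ)
      = (((Ioc 0 N).filter (fun n => f n ∈ F)).card : ℝ) := by
    simp_rw [← Finset.sum_boole]
    rw [Finset.sum_comm]
    refine Finset.sum_congr rfl fun n _ => ?_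
    rw [Finset.sum_ite_eq]
  rw [← Finset.sum_div, h0]
  have h1 : Ioc 0 N ⊆ (Ioc 0 N).filter (fun n => f n ∈ F) ∪ Bd := by
    intro n hn
    rw [Finset.mem_union, hBd, Finset.mem_filter, Finset.mem_filter]
    by_cases hb : ∃ p, badp f K y p n
    · exact Or.inr ⟨hn, hb⟩
    · exact Or.inl ⟨hn, hgood n hn hb⟩
  have h2 : (N : ℝ) ≤ ((Ioc 0 N).filter (fun n => f n ∈ F)).card + Bd.card := by
    have := (Finset.card_le_card h1).trans (Finset.card_union_le _ _)
    rw [Nat.card_Ioc, Nat.sub_zero] at this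
    exact_mod_cast this
  have h5 : Bd ⊆ (Finset.range (N+1)).biUnion (fun p => (Ioc 0 N).filter (badp f K y p)) := by
    intro n hn
    rw [hBd, Finset.mem_filter] at hn
    obtain ⟨hn1, p, hp⟩ := hn
    rw [Finset.mem_Ioc] at hn1
    rw [Finset.mem_biUnion]
    refine ⟨p, ?_, ?_⟩
    · rw [Finset.mem_range]
      have hpn : p ∣ n := by
        rcases hp.2 with h | h | h
        · exact (dvd_pow_self p (by omega)).trans h.2
        · exact (dvd_pow_self p (by omega)).trans h.2
        · exact h.2.2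
      have := Nat.le_of_dvd hn1.1 hpn
      omega
    · rw [Finset.mem_filter, Finset.mem_Ioc]
      exact ⟨hn1, hp⟩
  have h6 : (Bd.card : ℝ) ≤ N * ε := by
    calc (Bd.card : ℝ) ≤ ((∑ p ∈ Finset.range (N+1), ((Ioc 0 N).filter (badp f K y p)).card : ℕ) : ℝ) := by
          exact_mod_cast (Finset.card_le_card h5).trans Finset.card_biUnion_le
      _ = ∑ p ∈ Finset.range (N+1), (((Ioc 0 N).filter (badp f K y p)).card : ℝ) := by
          rw [Nat.cast_sum]
      _ ≤ ∑ p ∈ Finset.range (N+1), N * uu f K y p :=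
          Finset.sum_le_sum fun p _ => count_badp f K y p N
      _ = N * ∑ p ∈ Finset.range (N+1), uu f K y p := by rw [Finset.mul_sum]
      _ ≤ N * ∑' p, uu f K y p := by
          gcongr
          exact (hs y hy2).sum_le_tsum _ fun p _ => uu_nonneg f K y p
      _ ≤ N * ε := by gcongr
  rw [le_div_iff₀ hN']
  linarith

/-- there is a least finite good subgroup, and translating by its elements does not change the
distribution asymptotically -/
lemma least_exists {H : Type*} [NormedAddCommGroup H] [InnerProductSpace ℝ H]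
    {e : G → H} (he : Orthonormal ℝ e) {f : ℕ → G} (hf : IsMul f)
    (hex : ∃ K : Subgroup G, (K : Set G).Finite ∧ Good f K) :
    ∃ K : Subgroup G, IsLeast {L : Subgroup G | (L : Set G).Finite ∧ Good f L} K ∧
      ∀ k ∈ K, Tendsto (fun N : ℕ => ‖V e f k N - V e f 1 N‖) atTop (𝓝 0) := by
  classical
  have hex2 : ∃ n : ℕ, ∃ K : Subgroup G, (K : Set G).Finite ∧ Good f K ∧ Nat.card K = n := by
    obtain ⟨K, h1, h2⟩ := hex
    exact ⟨_, K, h1, h2, rfl⟩
  obtain ⟨K, hKfin, hKgood, hKcard⟩ := Nat.find_spec hex2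
  have hmin : ∀ L : Subgroup G, (L : Set G).Finite → Good f L → K ≤ L := by
    intro L hL1 hL2
    have h1 : ((K ⊓ L : Subgroup G) : Set G).Finite := hKfin.subset (by
      intro x hx
      exact (Subgroup.mem_inf.1 hx).1)
    have h2 : Good f (K ⊓ L) := good_inf hKgood hL2
    have h3 : Nat.card K ≤ Nat.card (K ⊓ L : Subgroup G) := by
      rw [hKcard]
      exact Nat.find_min' hex2 ⟨_, h1, h2, rfl⟩
    have h4 : (K ⊓ L : Subgroup G) = K := by
      have : Finite K := hKfin.to_subtype
      exact Subgroup.eq_of_le_of_card_ge inf_le_left h3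
    exact inf_eq_left.1 h4
  refine ⟨K, ⟨⟨hKfin, hKgood⟩, fun L hL => hmin L hL.1 hL.2⟩, ?_⟩
  intro k hk
  rw [tendsto_iff_ultrafilter]
  intro U hU
  by_cases hne : Tendsto (fun N : ℕ => ‖V e f 1 N‖) (U : Filter ℕ) (𝓝 0)
  · have h1 : ∀ N : ℕ, ‖V e f k N‖ = ‖V e f 1 N‖ := by
      intro N
      have h2 := inner_V_mul he f k 1 1 N N
      rw [mul_one, real_inner_self_eq_norm_sq, real_inner_self_eq_norm_sq] at h2
      have h3 := congrArg Real.sqrt h2
      rwa [Real.sqrt_sq (norm_nonneg _), Real.sqrt_sq (norm_nonneg _)] at h3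
    have h4 := hne.add hne
    rw [add_zero] at h4
    refine squeeze_zero (fun N => norm_nonneg _) (fun N => ?_) h4
    refine (norm_sub_le _ _).trans ?_
    rw [h1]
  · obtain ⟨hfin, C, hC⟩ := thmA he hf U hU hne
    exact (hmin (KK he f U) hfin ⟨C, hC⟩) hk

open Classical in
/-- structure theorem with counting by `Finset.filter` -/
theorem structure_thm {H : Type*} [NormedAddCommGroup H] [InnerProductSpace ℝ H]
    {e : G → H} (he : Orthonormal ℝ e) {f : ℕ → G} (hf : IsMul f) :
    ∃ d : G → ℝ,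
      (∀ g, Tendsto (fun N : ℕ => (((Ioc 0 N).filter (fun n => f n = g)).card : ℝ) / N)
        atTop (𝓝 (d g))) ∧
      ((¬ ∃ K : Subgroup G, (K : Set G).Finite ∧ Good f K) → ∀ g, d g = 0) ∧
      ((∃ K : Subgroup G, (K : Set G).Finite ∧ Good f K) → HasSum d 1 ∧
        ∃ K : Subgroup G, IsLeast {L : Subgroup G | (L : Set G).Finite ∧ Good f L} K ∧
          ∀ k ∈ K, ∀ g, d (k * g) = d g) := by
  choose d hd using fun g => density_filter he hf g
  refine ⟨d, hd, ?_, ?_⟩
  · intro hex g
    have h0 : Tendsto (fun N : ℕ => ‖V e f 1 N‖) atTop (𝓝 0) := by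
      rw [tendsto_iff_ultrafilter]
      intro U hU
      by_contra hne
      obtain ⟨hfin, C, hC⟩ := thmA he hf U hU hne
      exact hex ⟨_, hfin, C, hC⟩
    have hV1 : ∀ N : ℕ, (((Ioc 0 N).filter (fun n => f n = g)).card : ℝ) / N
        = inner ℝ (V e f 1 N) (e g) := by
      intro N
      rw [inner_V_e he]
      simp
    have h1 : Tendsto (fun N : ℕ => (((Ioc 0 N).filter (fun n => f n = g)).card : ℝ) / N)
        atTop (𝓝 0) := by
      simp_rw [hV1]
      refine squeeze_zero_norm (fun N => ?_) h0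
      refine (norm_inner_le_norm _ _).trans ?_
      rw [norm_e he, mul_one]
    exact tendsto_nhds_unique (hd g) h1
  · intro hex
    have hnonneg : ∀ g, 0 ≤ d g := fun g =>
      ge_of_tendsto (hd g) (Eventually.of_forall fun N => by positivity)
    constructor
    · obtain ⟨K0, hK0fin, hK0⟩ := hex
      have hle : ∀ F : Finset G, ∑ g ∈ F, d g ≤ 1 := by
        intro F
        have h1 : Tendsto (fun N : ℕ => ∑ g ∈ F, (((Ioc 0 N).filter (fun n => f n = g)).card : ℝ) / N)
            atTop (𝓝 (∑ g ∈ F, d g)) := tendsto_finsetSum _ fun g _ => hd g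
        refine le_of_tendsto h1 ?_
        filter_upwards [eventually_gt_atTop 0] with N hN
        have hN' : (0:ℝ) < N := by exact_mod_cast hN
        rw [← Finset.sum_div, div_le_one hN']
        have h0 : ∑ g ∈ F, (((Ioc 0 N).filter (fun n => f n = g)).card : ℝ)
            = (((Ioc 0 N).filter (fun n => f n ∈ F)).card : ℝ) := by
          simp_rw [← Finset.sum_boole]
          rw [Finset.sum_comm]
          refine Finset.sum_congr rfl fun n _ => ?_
          rw [Finset.sum_ite_eq]
        rw [h0]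
        have h2 : ((Ioc 0 N).filter (fun n => f n ∈ F)).card ≤ N := by
          refine (Finset.card_filter_le _ _).trans ?_
          rw [Nat.card_Ioc, Nat.sub_zero]
        exact_mod_cast h2
      have hsum : Summable d := summable_of_sum_le hnonneg hle
      have h1 : ∑' g, d g ≤ 1 := hsum.tsum_le_of_sum_le hle
      have h2 : 1 ≤ ∑' g, d g := by
        refine le_of_forall_pos_le_add fun ε hε => ?_
        obtain ⟨F, hF⟩ := mass hf K0 hK0fin hK0 ε hε
        have h3 : Tendsto (fun N : ℕ => ∑ g ∈ F, (((Ioc 0 N).filter (fun n => f n = g)).card : ℝ) / N)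
            atTop (𝓝 (∑ g ∈ F, d g)) := tendsto_finsetSum _ fun g _ => hd g
        have h4 : 1 - ε ≤ ∑ g ∈ F, d g := by
          refine ge_of_tendsto h3 ?_
          filter_upwards [eventually_gt_atTop 0] with N hN
          exact hF N hN
        have h5 := hsum.sum_le_tsum F fun g _ => hnonneg g
        linarith
      have h3 : ∑' g, d g = 1 := le_antisymm h1 h2
      rw [← h3]
      exact hsum.hasSum
    · obtain ⟨K, hKleast, hlim⟩ := least_exists he hf hex
      refine ⟨K, hKleast, fun k hk g => ?_⟩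
      -- the translate by k⁻¹
      have h1 := hlim k⁻¹ (K.inv_mem hk)
      have h2 : ∀ N : ℕ, (((Ioc 0 N).filter (fun n => f n = k * g)).card : ℝ) / N
          = inner ℝ (V e f k⁻¹ N) (e g) := by
        intro N
        rw [inner_V_e he]
        congr 3
        ext n
        simp only [Finset.mem_filter, and_congr_right_iff]
        intro _
        rw [inv_mul_eq_iff_eq_mul]
      have h3 : ∀ N : ℕ, (((Ioc 0 N).filter (fun n => f n = g)).card : ℝ) / N
          = inner ℝ (V e f 1 N) (e g) := by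
        intro N
        rw [inner_V_e he]
        simp
      have h4 : Tendsto (fun N : ℕ => inner ℝ (V e f k⁻¹ N) (e g) - inner ℝ (V e f 1 N) (e g))
          atTop (𝓝 0) := by
        refine squeeze_zero_norm (fun N => ?_) h1
        rw [← inner_sub_left]
        refine (norm_inner_le_norm _ _).trans ?_
        rw [norm_e he, mul_one]
      have h5 := (hd (k * g)).sub (hd g)
      simp_rw [h2, h3] at h5
      have h6 := tendsto_nhds_unique h5 h4
      linarith

end Pool.Agent.TH805.RZ
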